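import Mathlib

set_option autoImplicit false

namespace Pool.Agent.Helper425.RS

theorem elim1 (m c ρ : ℝ) (c0 : c ≠ 0) (c1 : c - 1 ≠ 0)
    (nC : m - 1 ≠ 0) (nD : m + 1 ≠ 0) (nF : c + 1 ≠ 0) (nG : m - c - 1 ≠ 0)
    (hQ2 : m^2*c - m^2 - m*c^2 + m*c + c^2 + 2*c + 1 ≠ 0)
    (R1 : ρ * (m^2*c - m^2 - m*c^2 + m*c + c^2 + 2*c + 1)
      = m^2*c - m^2 - m*c^2 - m*c - 2*m + 3*c^2 + 2*c - 1)
    (R12 : ρ * (m^3*c - m^3 - m^2*c^2 + 2*m^2*c - m^2 - m*c + m + c^2 + 2*c + 1)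
      = (m - 1) * (m^2*c - m^2 - m*c^2 + 3*m*c - 2*m - c^2 - 2*c - 1))
    (R7 : ρ * (m^3*c^2 - m^3 - 3*m^2*c^2 - m^2 - m*c^4 - 2*m*c^3 + 2*m*c + m - c^4 - 2*c^3 + 2*c + 1)
      = 2 * c * (m + c + 1) * (c - 1) * (m - c - 1)) :
    2*c^4 - c^3 - 4*c^2 + 3*c + 2 = 0 ∧ m * c = 2 - c^2 := by
  have G1 : m^2 * (c + 1) - m * (c - 1) * (c + 2) + (c + 1)^2 = 0 := by
    have h : (-2 * (c - 1)) * (m - c - 1) * (m + 1) ≠ 0 :=
      mul_ne_zero (mul_ne_zero (mul_ne_zero (by norm_num) c1) nG) nD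
    apply mul_left_cancel₀ h
    linear_combination (m^2*c - m^2 - m*c^2 + m*c + c^2 + 2*c + 1) * R12
      - (m^3*c - m^3 - m^2*c^2 + 2*m^2*c - m^2 - m*c + m + c^2 + 2*c + 1) * R1
  obtain ⟨e, he⟩ : ∃ e, e = (c + 1)^2 := ⟨_, rfl⟩
  obtain ⟨V, hV⟩ : ∃ V, V = e - m * (c + 3) := ⟨_, rfl⟩
  obtain ⟨W, hW⟩ : ∃ W, W = e - m * (c - 1) := ⟨_, rfl⟩
  obtain ⟨U, hU⟩ : ∃ U, U = 3 * m * (c + 2) * (c - 1) + e * (c - 2) := ⟨_, rfl⟩
  have q1 : (c + 1) * (m^2*c - m^2 - m*c^2 - m*c - 2*m + 3*c^2 + 2*c - 1) = 2 * c * V := by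
    rw [hV, he]; linear_combination (c - 1) * G1
  have q2 : (c + 1) * (m^2*c - m^2 - m*c^2 + m*c + c^2 + 2*c + 1) = 2 * W := by
    rw [hW, he]; linear_combination (c - 1) * G1
  have q5 : (m^3*c^2 - m^3 - 3*m^2*c^2 - m^2 - m*c^4 - 2*m*c^3 + 2*m*c + m - c^4 - 2*c^3 + 2*c + 1)
      = - 2 * c * U := by
    rw [hU, he]; linear_combination (m*c - m + c^2 - 4*c + 1) * G1
  have W0 : W ≠ 0 := by
    intro h
    rw [h] at q2
    exact (mul_ne_zero nF hQ2) (by linear_combination q2)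
  have r1 : ρ * W = c * V := by
    have h2 : (2 : ℝ) ≠ 0 := by norm_num
    apply mul_left_cancel₀ h2
    linear_combination (c + 1) * R1 - ρ * q2 + q1
  have r7 : ρ * U * (c + 1) = (c - 1) * (c + 2) * W := by
    have h2 : (-2 * c) ≠ 0 := mul_ne_zero (by norm_num) c0
    apply mul_left_cancel₀ h2
    rw [hW, he]
    linear_combination (c + 1) * R7 - ρ * (c + 1) * q5 + (2 * c * (c - 1)) * G1
  have K : c * V * (c + 1) * U - (c - 1) * (c + 2) * W^2 = 0 := by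
    linear_combination -(c + 1) * U * r1 + W * r7
  obtain ⟨A, hA⟩ : ∃ A, A = -c^6 - 7*c^5 + 2*c^4 + 56*c^3 + 57*c^2 - 25*c - 18 := ⟨_, rfl⟩
  obtain ⟨B, hB⟩ : ∃ B, B = c^7 + 6*c^6 + 19*c^5 + 26*c^4 - 9*c^3 - 54*c^2 - 43*c - 10 := ⟨_, rfl⟩
  have L : A * m + B = 0 := by
    apply mul_left_cancel₀ c0
    rw [hA, hB]
    rw [hV, hU, hW, he] at K
    linear_combination (c + 1) * K - (-3*c*(c+1)*(c+3)*(c+2)*(c-1) - (c-1)^3*(c+2)) * G1
  have c2 : c + 2 ≠ 0 := by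
    intro h
    have h3 : (m - 1) * (m + 1) = 0 := by
      have hc : c = -2 := by linear_combination h
      rw [hc] at G1
      linear_combination -G1
    exact (mul_ne_zero nC nD) h3
  have F : 2*c^4 - c^3 - 4*c^2 + 3*c + 2 = 0 := by
    have h : 16 * (c + 1)^8 * (c + 2) ≠ 0 := mul_ne_zero (mul_ne_zero (by norm_num) (pow_ne_zero _ nF)) c2
    apply mul_left_cancel₀ h
    have h1 : (c + 1) * B^2 + (c - 1) * (c + 2) * A * B + (c + 1)^2 * A^2 = 0 := by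
      linear_combination A^2 * G1 - ((c + 1) * (A * m - B) - (c - 1) * (c + 2) * A) * L
    have h2 : (c + 1) * B^2 + (c - 1) * (c + 2) * A * B + (c + 1)^2 * A^2 =
      16 * (c + 1)^8 * (c + 2) * (2*c^4 - c^3 - 4*c^2 + 3*c + 2) := by
      rw [hA, hB]; ring
    linear_combination h1 - h2
  refine ⟨F, ?_⟩
  have A0 : A ≠ 0 := by
    intro h
    have : (1:ℝ) = 0 := by
      rw [hA] at h
      linear_combination (4543/16 - 6451/32 * c - 7831/64 * c^2 + 4111/32 * c^3) * h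
        + (40895/16 - 67169/32 * c - 220989/64 * c^2 - 20401/64 * c^3 + 26917/64 * c^4 + 4111/64 * c^5) * F
    norm_num at this
  apply mul_left_cancel₀ A0
  have h4 : A * (2 - c^2) + c * B = 0 := by
    rw [hA, hB]; linear_combination (c - 1) * (c + 2) * (c + 3)^2 * F
  linear_combination c * L - h4

end Pool.Agent.Helper425.RS
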