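import Mathlib
import Pool.Agent.Helper425.RankStrong.Elim

set_option autoImplicit false

namespace Pool.Agent.Helper425.RS

/-- incidence of point `i` with plane `j`. -/
def inc (i j : Fin 13) : Bool :=
  decide (j - i = 0) || decide (j - i = 1) || decide (j - i = 2) || decide (j - i = 5) || decide (j - i = 7)

/-- dot product on `ℝ^4`. -/
def dot4 (x y : Fin 4 → ℝ) : ℝ := x 0 * y 0 + x 1 * y 1 + x 2 * y 2 + x 3 * y 3


theorem core1 (a b c : ℝ) (x y : Fin 13 → Fin 4 → ℝ)
    (H : ∀ i j : Fin 13, i ≠ 0 → (dot4 (x i) (y j) = 0 ↔ inc i j = true))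
    (x1 : x 1 = ![1,0,0,0]) (x2 : x 2 = ![0,1,0,0]) (x3 : x 3 = ![0,0,1,0])
    (x4 : x 4 = ![0,0,0,1]) (x8 : x 8 = ![1,1,1,1]) (x5 : x 5 = ![a,b,c,1]) :
    c ≠ 0 ∧ 2 * c * b = c + 2 ∧ c * a = 2 - 2 * c + c ^ 2 ∧ 2*c^4 - c^3 - 4*c^2 + 3*c + 2 = 0 ∧
    ∀ z : Fin 4 → ℝ,
      (dot4 z (y 2) = 0 → z 2 = z 3) ∧
      (dot4 z (y 5) = 0 → (2 + c) * z 0 = (4 - 4 * c + 2 * c^2) * z 1) ∧
      (dot4 z (y 7) = 0 → - c^2 * z 0 + (1 + c^2) * z 2 + (c - 2*c^2) * z 3 = 0) ∧
      (dot4 z (y 1) = 0 → (2*c - 2) * z 1 + z 2 + (2 - c - 2*c^2) * z 3 = 0) ∧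
      (dot4 z (y 0) = 0 → (2*c + c^2 - 2*c^3) * z 0 + (6*c - 4) * z 1 +
        (2*c^3 - 3*c^2 - 3*c + 2) * z 2 + (2*c^2 - 5*c + 2) * z 3 = 0) := by
  have E : ∀ i j : Fin 13, i ≠ 0 → inc i j = true → dot4 (x i) (y j) = 0 := fun i j h h2 => (H i j h).2 h2
  have N : ∀ i j : Fin 13, i ≠ 0 → inc i j = false → dot4 (x i) (y j) ≠ 0 := fun i j h h2 h3 => by
    have := (H i j h).1 h3
    rw [h2] at this; exact absurd this (by decide)
  have ny0_0 : y 0 0 ≠ 0 := by have := N 1 0 (by decide) (by decide); simpa [dot4, x1] using this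
  have y1_0 : y 1 0 = 0 := by have := E 1 1 (by decide) (by decide); simpa [dot4, x1] using this
  have y2_0 : y 2 0 = 0 := by have := E 1 2 (by decide) (by decide); simpa [dot4, x1] using this
  have y3_0 : y 3 0 = 0 := by have := E 1 3 (by decide) (by decide); simpa [dot4, x1] using this
  have ny4_0 : y 4 0 ≠ 0 := by have := N 1 4 (by decide) (by decide); simpa [dot4, x1] using this
  have ny5_0 : y 5 0 ≠ 0 := by have := N 1 5 (by decide) (by decide); simpa [dot4, x1] using this
  have y6_0 : y 6 0 = 0 := by have := E 1 6 (by decide) (by decide); simpa [dot4, x1] using this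
  have ny7_0 : y 7 0 ≠ 0 := by have := N 1 7 (by decide) (by decide); simpa [dot4, x1] using this
  have y8_0 : y 8 0 = 0 := by have := E 1 8 (by decide) (by decide); simpa [dot4, x1] using this
  have ny9_0 : y 9 0 ≠ 0 := by have := N 1 9 (by decide) (by decide); simpa [dot4, x1] using this
  have ny10_0 : y 10 0 ≠ 0 := by have := N 1 10 (by decide) (by decide); simpa [dot4, x1] using this
  have ny11_0 : y 11 0 ≠ 0 := by have := N 1 11 (by decide) (by decide); simpa [dot4, x1] using this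
  have ny12_0 : y 12 0 ≠ 0 := by have := N 1 12 (by decide) (by decide); simpa [dot4, x1] using this
  have ny0_1 : y 0 1 ≠ 0 := by have := N 2 0 (by decide) (by decide); simpa [dot4, x2] using this
  have ny1_1 : y 1 1 ≠ 0 := by have := N 2 1 (by decide) (by decide); simpa [dot4, x2] using this
  have y2_1 : y 2 1 = 0 := by have := E 2 2 (by decide) (by decide); simpa [dot4, x2] using this
  have y3_1 : y 3 1 = 0 := by have := E 2 3 (by decide) (by decide); simpa [dot4, x2] using this
  have y4_1 : y 4 1 = 0 := by have := E 2 4 (by decide) (by decide); simpa [dot4, x2] using this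
  have ny5_1 : y 5 1 ≠ 0 := by have := N 2 5 (by decide) (by decide); simpa [dot4, x2] using this
  have ny6_1 : y 6 1 ≠ 0 := by have := N 2 6 (by decide) (by decide); simpa [dot4, x2] using this
  have y7_1 : y 7 1 = 0 := by have := E 2 7 (by decide) (by decide); simpa [dot4, x2] using this
  have ny8_1 : y 8 1 ≠ 0 := by have := N 2 8 (by decide) (by decide); simpa [dot4, x2] using this
  have y9_1 : y 9 1 = 0 := by have := E 2 9 (by decide) (by decide); simpa [dot4, x2] using this
  have ny10_1 : y 10 1 ≠ 0 := by have := N 2 10 (by decide) (by decide); simpa [dot4, x2] using this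
  have ny11_1 : y 11 1 ≠ 0 := by have := N 2 11 (by decide) (by decide); simpa [dot4, x2] using this
  have ny12_1 : y 12 1 ≠ 0 := by have := N 2 12 (by decide) (by decide); simpa [dot4, x2] using this
  have ny0_2 : y 0 2 ≠ 0 := by have := N 3 0 (by decide) (by decide); simpa [dot4, x3] using this
  have ny1_2 : y 1 2 ≠ 0 := by have := N 3 1 (by decide) (by decide); simpa [dot4, x3] using this
  have ny2_2 : y 2 2 ≠ 0 := by have := N 3 2 (by decide) (by decide); simpa [dot4, x3] using this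
  have y3_2 : y 3 2 = 0 := by have := E 3 3 (by decide) (by decide); simpa [dot4, x3] using this
  have y4_2 : y 4 2 = 0 := by have := E 3 4 (by decide) (by decide); simpa [dot4, x3] using this
  have y5_2 : y 5 2 = 0 := by have := E 3 5 (by decide) (by decide); simpa [dot4, x3] using this
  have ny6_2 : y 6 2 ≠ 0 := by have := N 3 6 (by decide) (by decide); simpa [dot4, x3] using this
  have ny7_2 : y 7 2 ≠ 0 := by have := N 3 7 (by decide) (by decide); simpa [dot4, x3] using this
  have y8_2 : y 8 2 = 0 := by have := E 3 8 (by decide) (by decide); simpa [dot4, x3] using this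
  have ny9_2 : y 9 2 ≠ 0 := by have := N 3 9 (by decide) (by decide); simpa [dot4, x3] using this
  have y10_2 : y 10 2 = 0 := by have := E 3 10 (by decide) (by decide); simpa [dot4, x3] using this
  have ny11_2 : y 11 2 ≠ 0 := by have := N 3 11 (by decide) (by decide); simpa [dot4, x3] using this
  have ny12_2 : y 12 2 ≠ 0 := by have := N 3 12 (by decide) (by decide); simpa [dot4, x3] using this
  have ny0_3 : y 0 3 ≠ 0 := by have := N 4 0 (by decide) (by decide); simpa [dot4, x4] using this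
  have ny1_3 : y 1 3 ≠ 0 := by have := N 4 1 (by decide) (by decide); simpa [dot4, x4] using this
  have ny2_3 : y 2 3 ≠ 0 := by have := N 4 2 (by decide) (by decide); simpa [dot4, x4] using this
  have ny3_3 : y 3 3 ≠ 0 := by have := N 4 3 (by decide) (by decide); simpa [dot4, x4] using this
  have y4_3 : y 4 3 = 0 := by have := E 4 4 (by decide) (by decide); simpa [dot4, x4] using this
  have y5_3 : y 5 3 = 0 := by have := E 4 5 (by decide) (by decide); simpa [dot4, x4] using this
  have y6_3 : y 6 3 = 0 := by have := E 4 6 (by decide) (by decide); simpa [dot4, x4] using this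
  have ny7_3 : y 7 3 ≠ 0 := by have := N 4 7 (by decide) (by decide); simpa [dot4, x4] using this
  have ny8_3 : y 8 3 ≠ 0 := by have := N 4 8 (by decide) (by decide); simpa [dot4, x4] using this
  have y9_3 : y 9 3 = 0 := by have := E 4 9 (by decide) (by decide); simpa [dot4, x4] using this
  have ny10_3 : y 10 3 ≠ 0 := by have := N 4 10 (by decide) (by decide); simpa [dot4, x4] using this
  have y11_3 : y 11 3 = 0 := by have := E 4 11 (by decide) (by decide); simpa [dot4, x4] using this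
  have ny12_3 : y 12 3 ≠ 0 := by have := N 4 12 (by decide) (by decide); simpa [dot4, x4] using this
  have e8_8 : y 8 1 + y 8 3 = 0 := by have := E 8 8 (by decide) (by decide); simpa [dot4, x8, y8_0, y8_2] using this
  have e8_9 : y 9 0 + y 9 2 = 0 := by have := E 8 9 (by decide) (by decide); simpa [dot4, x8, y9_1, y9_3] using this
  have e8_10 : y 10 0 + y 10 1 + y 10 3 = 0 := by have := E 8 10 (by decide) (by decide); simpa [dot4, x8, y10_2] using this
  have e8_0 : y 0 0 + y 0 1 + y 0 2 + y 0 3 = 0 := by have := E 8 0 (by decide) (by decide); simpa [dot4, x8] using this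
  have e8_2 : y 2 2 + y 2 3 = 0 := by have := E 8 2 (by decide) (by decide); simpa [dot4, x8, y2_0, y2_1] using this
  have e5_5 : a * y 5 0 + b * y 5 1 = 0 := by have := E 5 5 (by decide) (by decide); simpa [dot4, x5, y5_2, y5_3] using this
  have e5_6 : b * y 6 1 + c * y 6 2 = 0 := by have := E 5 6 (by decide) (by decide); simpa [dot4, x5, y6_0, y6_3] using this
  have e5_7 : a * y 7 0 + c * y 7 2 + y 7 3 = 0 := by have := E 5 7 (by decide) (by decide); simpa [dot4, x5, y7_1] using this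
  have e5_10 : a * y 10 0 + b * y 10 1 + y 10 3 = 0 := by have := E 5 10 (by decide) (by decide); simpa [dot4, x5, y10_2] using this
  have e5_12 : a * y 12 0 + b * y 12 1 + c * y 12 2 + y 12 3 = 0 := by have := E 5 12 (by decide) (by decide); simpa [dot4, x5] using this
  have p5_4 : a * y 4 0 ≠ 0 := by have := N 5 4 (by decide) (by decide); simpa [dot4, x5, y4_1, y4_2, y4_3] using this
  have p5_2 : c * y 2 2 + y 2 3 ≠ 0 := by have := N 5 2 (by decide) (by decide); simpa [dot4, x5, y2_0, y2_1] using this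
  have p5_8 : b * y 8 1 + y 8 3 ≠ 0 := by have := N 5 8 (by decide) (by decide); simpa [dot4, x5, y8_0, y8_2] using this
  have e6_0 : x 6 0 * y 0 0 + x 6 1 * y 0 1 + x 6 2 * y 0 2 + x 6 3 * y 0 3 = 0 := by have := E 6 0 (by decide) (by decide); simpa only [dot4, mul_zero, add_zero, zero_add] using this
  have e6_6 : x 6 1 * y 6 1 + x 6 2 * y 6 2 = 0 := by have := E 6 6 (by decide) (by decide); simpa only [dot4, y6_0, y6_3, mul_zero, add_zero, zero_add] using this
  have e6_7 : x 6 0 * y 7 0 + x 6 2 * y 7 2 + x 6 3 * y 7 3 = 0 := by have := E 6 7 (by decide) (by decide); simpa only [dot4, y7_1, mul_zero, add_zero, zero_add] using this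
  have e6_8 : x 6 1 * y 8 1 + x 6 3 * y 8 3 = 0 := by have := E 6 8 (by decide) (by decide); simpa only [dot4, y8_0, y8_2, mul_zero, add_zero, zero_add] using this
  have e6_11 : x 6 0 * y 11 0 + x 6 1 * y 11 1 + x 6 2 * y 11 2 = 0 := by have := E 6 11 (by decide) (by decide); simpa only [dot4, y11_3, mul_zero, add_zero, zero_add] using this
  have e7_1 : x 7 1 * y 1 1 + x 7 2 * y 1 2 + x 7 3 * y 1 3 = 0 := by have := E 7 1 (by decide) (by decide); simpa only [dot4, y1_0, mul_zero, add_zero, zero_add] using this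
  have e7_7 : x 7 0 * y 7 0 + x 7 2 * y 7 2 + x 7 3 * y 7 3 = 0 := by have := E 7 7 (by decide) (by decide); simpa only [dot4, y7_1, mul_zero, add_zero, zero_add] using this
  have e7_8 : x 7 1 * y 8 1 + x 7 3 * y 8 3 = 0 := by have := E 7 8 (by decide) (by decide); simpa only [dot4, y8_0, y8_2, mul_zero, add_zero, zero_add] using this
  have e7_9 : x 7 0 * y 9 0 + x 7 2 * y 9 2 = 0 := by have := E 7 9 (by decide) (by decide); simpa only [dot4, y9_1, y9_3, mul_zero, add_zero, zero_add] using this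
  have e7_12 : x 7 0 * y 12 0 + x 7 1 * y 12 1 + x 7 2 * y 12 2 + x 7 3 * y 12 3 = 0 := by have := E 7 12 (by decide) (by decide); simpa only [dot4, mul_zero, add_zero, zero_add] using this
  have e9_1 : x 9 1 * y 1 1 + x 9 2 * y 1 2 + x 9 3 * y 1 3 = 0 := by have := E 9 1 (by decide) (by decide); simpa only [dot4, y1_0, mul_zero, add_zero, zero_add] using this
  have e9_3 : x 9 3 * y 3 3 = 0 := by have := E 9 3 (by decide) (by decide); simpa only [dot4, y3_0, y3_1, y3_2, mul_zero, add_zero, zero_add] using this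
  have e9_9 : x 9 0 * y 9 0 + x 9 2 * y 9 2 = 0 := by have := E 9 9 (by decide) (by decide); simpa only [dot4, y9_1, y9_3, mul_zero, add_zero, zero_add] using this
  have e9_10 : x 9 0 * y 10 0 + x 9 1 * y 10 1 + x 9 3 * y 10 3 = 0 := by have := E 9 10 (by decide) (by decide); simpa only [dot4, y10_2, mul_zero, add_zero, zero_add] using this
  have e9_11 : x 9 0 * y 11 0 + x 9 1 * y 11 1 + x 9 2 * y 11 2 = 0 := by have := E 9 11 (by decide) (by decide); simpa only [dot4, y11_3, mul_zero, add_zero, zero_add] using this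
  have e10_2 : x 10 2 * y 2 2 + x 10 3 * y 2 3 = 0 := by have := E 10 2 (by decide) (by decide); simpa only [dot4, y2_0, y2_1, mul_zero, add_zero, zero_add] using this
  have e10_4 : x 10 0 * y 4 0 = 0 := by have := E 10 4 (by decide) (by decide); simpa only [dot4, y4_1, y4_2, y4_3, mul_zero, add_zero, zero_add] using this
  have e10_10 : x 10 0 * y 10 0 + x 10 1 * y 10 1 + x 10 3 * y 10 3 = 0 := by have := E 10 10 (by decide) (by decide); simpa only [dot4, y10_2, mul_zero, add_zero, zero_add] using this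
  have e10_11 : x 10 0 * y 11 0 + x 10 1 * y 11 1 + x 10 2 * y 11 2 = 0 := by have := E 10 11 (by decide) (by decide); simpa only [dot4, y11_3, mul_zero, add_zero, zero_add] using this
  have e10_12 : x 10 0 * y 12 0 + x 10 1 * y 12 1 + x 10 2 * y 12 2 + x 10 3 * y 12 3 = 0 := by have := E 10 12 (by decide) (by decide); simpa only [dot4, mul_zero, add_zero, zero_add] using this
  have e11_0 : x 11 0 * y 0 0 + x 11 1 * y 0 1 + x 11 2 * y 0 2 + x 11 3 * y 0 3 = 0 := by have := E 11 0 (by decide) (by decide); simpa only [dot4, mul_zero, add_zero, zero_add] using this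
  have e11_3 : x 11 3 * y 3 3 = 0 := by have := E 11 3 (by decide) (by decide); simpa only [dot4, y3_0, y3_1, y3_2, mul_zero, add_zero, zero_add] using this
  have e11_5 : x 11 0 * y 5 0 + x 11 1 * y 5 1 = 0 := by have := E 11 5 (by decide) (by decide); simpa only [dot4, y5_2, y5_3, mul_zero, add_zero, zero_add] using this
  have e11_11 : x 11 0 * y 11 0 + x 11 1 * y 11 1 + x 11 2 * y 11 2 = 0 := by have := E 11 11 (by decide) (by decide); simpa only [dot4, y11_3, mul_zero, add_zero, zero_add] using this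
  have e11_12 : x 11 0 * y 12 0 + x 11 1 * y 12 1 + x 11 2 * y 12 2 + x 11 3 * y 12 3 = 0 := by have := E 11 12 (by decide) (by decide); simpa only [dot4, mul_zero, add_zero, zero_add] using this
  have e12_0 : x 12 0 * y 0 0 + x 12 1 * y 0 1 + x 12 2 * y 0 2 + x 12 3 * y 0 3 = 0 := by have := E 12 0 (by decide) (by decide); simpa only [dot4, mul_zero, add_zero, zero_add] using this
  have e12_1 : x 12 1 * y 1 1 + x 12 2 * y 1 2 + x 12 3 * y 1 3 = 0 := by have := E 12 1 (by decide) (by decide); simpa only [dot4, y1_0, mul_zero, add_zero, zero_add] using this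
  have e12_4 : x 12 0 * y 4 0 = 0 := by have := E 12 4 (by decide) (by decide); simpa only [dot4, y4_1, y4_2, y4_3, mul_zero, add_zero, zero_add] using this
  have e12_6 : x 12 1 * y 6 1 + x 12 2 * y 6 2 = 0 := by have := E 12 6 (by decide) (by decide); simpa only [dot4, y6_0, y6_3, mul_zero, add_zero, zero_add] using this
  have e12_12 : x 12 0 * y 12 0 + x 12 1 * y 12 1 + x 12 2 * y 12 2 + x 12 3 * y 12 3 = 0 := by have := E 12 12 (by decide) (by decide); simpa only [dot4, mul_zero, add_zero, zero_add] using this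
  have p9_4 : x 9 0 * y 4 0 ≠ 0 := by have := N 9 4 (by decide) (by decide); simpa only [dot4, y4_1, y4_2, y4_3, mul_zero, add_zero, zero_add, ne_eq] using this
  have p10_3 : x 10 3 * y 3 3 ≠ 0 := by have := N 10 3 (by decide) (by decide); simpa only [dot4, y3_0, y3_1, y3_2, mul_zero, add_zero, zero_add, ne_eq] using this
  have p11_4 : x 11 0 * y 4 0 ≠ 0 := by have := N 11 4 (by decide) (by decide); simpa only [dot4, y4_1, y4_2, y4_3, mul_zero, add_zero, zero_add, ne_eq] using this
  have p6_3 : x 6 3 * y 3 3 ≠ 0 := by have := N 6 3 (by decide) (by decide); simpa only [dot4, y3_0, y3_1, y3_2, mul_zero, add_zero, zero_add, ne_eq] using this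
  have p12_5 : x 12 0 * y 5 0 + x 12 1 * y 5 1 ≠ 0 := by have := N 12 5 (by decide) (by decide); simpa only [dot4, y5_2, y5_3, mul_zero, add_zero, zero_add, ne_eq] using this
  have p12_3 : x 12 3 * y 3 3 ≠ 0 := by have := N 12 3 (by decide) (by decide); simpa only [dot4, y3_0, y3_1, y3_2, mul_zero, add_zero, zero_add, ne_eq] using this
  have p7_3 : x 7 3 * y 3 3 ≠ 0 := by have := N 7 3 (by decide) (by decide); simpa only [dot4, y3_0, y3_1, y3_2, mul_zero, add_zero, zero_add, ne_eq] using this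
  have a0 : a ≠ 0 := by intro h; apply p5_4; rw [h]; ring
  have b1 : b - 1 ≠ 0 := by intro h; apply p5_8; linear_combination (y 8 1) * h + e8_8
  have c1 : c - 1 ≠ 0 := by intro h; apply p5_2; linear_combination (y 2 2) * h + e8_2
  have b0 : b ≠ 0 := by
    intro h
    have h2 : a * y 5 0 = 0 := by linear_combination e5_5 - (y 5 1) * h
    exact (mul_ne_zero a0 ny5_0) h2
  have c0 : c ≠ 0 := by
    intro h
    have h2 : b * y 6 1 = 0 := by linear_combination e5_6 - (y 6 2) * h
    exact (mul_ne_zero b0 ny6_1) h2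
  have h10 : (a - 1) * y 10 0 + (b - 1) * y 10 1 = 0 := by linear_combination e5_10 - e8_10
  have a1 : a - 1 ≠ 0 := by
    intro h
    have h2 : (b - 1) * y 10 1 = 0 := by linear_combination h10 - (y 10 0) * h
    exact (mul_ne_zero b1 ny10_1) h2
  obtain ⟨t, ht⟩ : ∃ t, y 10 0 = (b - 1) * t := ⟨y 10 0 / (b - 1), by field_simp⟩
  have y10b : y 10 1 = -(a - 1) * t := by
    apply mul_left_cancel₀ b1; linear_combination h10 - (a - 1) * ht
  have y10d : y 10 3 = (a - b) * t := by linear_combination e8_10 - ht - y10b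
  have t0 : t ≠ 0 := by intro h; apply ny10_0; rw [ht, h]; ring
  have ab : a - b ≠ 0 := by intro h; apply ny10_3; rw [y10d, h]; ring
  -- point 9
  have x93 : x 9 3 = 0 := by
    rcases mul_eq_zero.1 e9_3 with h | h
    · exact h
    · exact absurd h ny3_3
  have x92 : x 9 2 = x 9 0 := by
    apply mul_left_cancel₀ ny9_2; linear_combination e9_9 - (x 9 0) * e8_9
  have h9 : (b - 1) * x 9 0 = (a - 1) * x 9 1 := by
    apply mul_left_cancel₀ t0
    linear_combination e9_10 - (x 9 0) * ht - (x 9 1) * y10b - (y 10 3) * x93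
  obtain ⟨u, hu⟩ : ∃ u, x 9 0 = (a - 1) * u := ⟨x 9 0 / (a - 1), by field_simp⟩
  have x91 : x 9 1 = (b - 1) * u := by
    apply mul_left_cancel₀ a1; linear_combination -h9 + (b - 1) * hu
  have u0 : u ≠ 0 := by intro h; apply p9_4; rw [hu, h]; ring
  -- point 10
  have x100 : x 10 0 = 0 := by
    rcases mul_eq_zero.1 e10_4 with h | h
    · exact h
    · exact absurd h ny4_0
  have x102 : x 10 2 = x 10 3 := by
    apply mul_left_cancel₀ ny2_2; linear_combination e10_2 - (x 10 3) * e8_2
  have h10' : (a - 1) * x 10 1 = (a - b) * x 10 3 := by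
    apply mul_left_cancel₀ t0
    linear_combination -e10_10 + (y 10 0) * x100 + (x 10 1) * y10b + (x 10 3) * y10d
  obtain ⟨s, hs⟩ : ∃ s, x 10 3 = (a - 1) * s := ⟨x 10 3 / (a - 1), by field_simp⟩
  have x101 : x 10 1 = (a - b) * s := by
    apply mul_left_cancel₀ a1; linear_combination h10' + (a - b) * hs
  have s0 : s ≠ 0 := by intro h; apply p10_3; rw [hs, h]; ring
  -- point 11
  have x113 : x 11 3 = 0 := by
    rcases mul_eq_zero.1 e11_3 with h | h
    · exact h
    · exact absurd h ny3_3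
  have h11 : b * x 11 0 = a * x 11 1 := by
    apply mul_left_cancel₀ ny5_0; linear_combination b * e11_5 - (x 11 1) * e5_5
  obtain ⟨w, hw⟩ : ∃ w, x 11 1 = b * w := ⟨x 11 1 / b, by field_simp⟩
  have x110 : x 11 0 = a * w := by
    apply mul_left_cancel₀ b0; linear_combination h11 + a * hw
  have w0 : w ≠ 0 := by intro h; apply p11_4; rw [x110, h]; ring
  -- plane 11
  have h11a : (a - 1) * y 11 0 + (b - 1) * y 11 1 + (a - 1) * y 11 2 = 0 := by
    apply mul_left_cancel₀ u0
    linear_combination e9_11 - (y 11 0) * hu - (y 11 1) * x91 - (y 11 2) * (x92 + hu)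
  have h11b : (a - b) * y 11 1 + (a - 1) * y 11 2 = 0 := by
    apply mul_left_cancel₀ s0
    linear_combination e10_11 - (y 11 0) * x100 - (y 11 1) * x101 - (y 11 2) * (x102 + hs)
  obtain ⟨v, hv⟩ : ∃ v, y 11 1 = (a - 1) * v := ⟨y 11 1 / (a - 1), by field_simp⟩
  have y112 : y 11 2 = (b - a) * v := by
    apply mul_left_cancel₀ a1; linear_combination h11b - (a - b) * hv
  have y110 : y 11 0 = (a - 2 * b + 1) * v := by
    apply mul_left_cancel₀ a1; linear_combination h11a - (b - 1) * hv - (a - 1) * y112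
  have v0 : v ≠ 0 := by intro h; apply ny11_1; rw [hv, h]; ring
  obtain ⟨k, hk⟩ : ∃ k, k = a - 2 * b + 1 := ⟨_, rfl⟩
  have k0 : k ≠ 0 := by intro h; apply ny11_0; rw [y110, ← hk, h]; ring
  have x112 : x 11 2 = (a + 1) * w := by
    apply mul_left_cancel₀ ab; apply mul_left_cancel₀ v0
    linear_combination -e11_11 + (y 11 0) * x110 + (y 11 1) * hw + (a * w) * y110 + (b * w) * hv + (x 11 2) * y112
  -- point 6
  have x61 : x 6 3 = x 6 1 := by
    apply mul_left_cancel₀ ny8_3; linear_combination e6_8 - (x 6 1) * e8_8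
  have h6 : c * x 6 1 = b * x 6 2 := by
    apply mul_left_cancel₀ ny6_1; linear_combination c * e6_6 - (x 6 2) * e5_6
  obtain ⟨g', hg'⟩ : ∃ g, x 6 1 = (b * k) * g := ⟨x 6 1 / (b * k), by field_simp⟩
  have x62 : x 6 2 = c * k * g' := by
    apply mul_left_cancel₀ b0; linear_combination -h6 + c * hg'
  have g0 : g' ≠ 0 := by intro h; apply p6_3; rw [x61, hg', h]; ring
  have x60 : x 6 0 = (c * (a - b) - b * (a - 1)) * g' := by
    apply mul_left_cancel₀ k0; apply mul_left_cancel₀ v0
    rw [hk] at *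
    linear_combination e6_11 - (x 6 0) * y110 - (x 6 1) * hv - (x 6 2) * y112 - ((a - 1) * v) * hg' - ((b - a) * v) * x62
  -- plane 0
  have h0a : (a - b) * (c - 2 * b) * y 0 0 = (b - c) * k * y 0 2 := by
    apply mul_left_cancel₀ g0
    linear_combination e6_0 - (y 0 0) * x60 - (y 0 1) * hg' - (y 0 2) * x62 - (y 0 3) * (x61 + hg')
      - (b * k * g') * e8_0 + (g' * b * y 0 0) * hk
  have c2b : c - 2 * b ≠ 0 := by
    intro h
    have h2 : (b - c) * (k * y 0 2) = 0 := by linear_combination -h0a + (a - b) * (y 0 0) * h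
    have h3 : b - c = 0 := by
      rcases mul_eq_zero.1 h2 with h3 | h3
      · exact h3
      · exact absurd h3 (mul_ne_zero k0 ny0_2)
    apply b0; linear_combination -h - h3
  have bc : b - c ≠ 0 := by
    intro h
    have h2 : (a - b) * (c - 2 * b) * y 0 0 = 0 := by linear_combination h0a + (k * y 0 2) * h
    exact (mul_ne_zero (mul_ne_zero ab c2b) ny0_0) h2
  obtain ⟨q, hq⟩ : ∃ q, y 0 0 = (b - c) * k * q := ⟨y 0 0 / ((b - c) * k), by field_simp⟩
  have y02 : y 0 2 = (a - b) * (c - 2 * b) * q := by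
    apply mul_left_cancel₀ (mul_ne_zero bc k0); linear_combination -h0a + (a - b) * (c - 2 * b) * hq
  have h0b : a * y 0 0 + b * y 0 1 + (a + 1) * y 0 2 = 0 := by
    apply mul_left_cancel₀ w0
    linear_combination e11_0 - (y 0 0) * x110 - (y 0 1) * hw - (y 0 2) * x112 - (y 0 3) * x113
  have y01 : y 0 1 = (a ^ 2 - a * c + a - 2 * b + c) * q := by
    apply mul_left_cancel₀ b0
    linear_combination h0b - a * hq - (a + 1) * y02 - a * (b - c) * q * hk
  have y03 : y 0 3 = -((a - b) * (a - c + 1)) * q := by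
    linear_combination e8_0 - hq - y01 - y02 - (b - c) * q * hk
  have q0 : q ≠ 0 := by intro h; apply ny0_0; rw [hq, h]; ring
  have ac1 : a - c + 1 ≠ 0 := by intro h; apply ny0_3; rw [y03, h]; ring
  obtain ⟨D, hD⟩ : ∃ D, D = (a - b) * (a - c + 1) := ⟨_, rfl⟩
  have D0 : D ≠ 0 := by rw [hD]; exact mul_ne_zero ab ac1
  -- plane 12
  have h12a : a * y 12 0 + b * y 12 1 + (a + 1) * y 12 2 = 0 := by
    apply mul_left_cancel₀ w0
    linear_combination e11_12 - (y 12 0) * x110 - (y 12 1) * hw - (y 12 2) * x112 - (y 12 3) * x113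
  have h12b : y 12 3 = (a + 1 - c) * y 12 2 := by linear_combination e5_12 - h12a
  have h12c : (a - b) * y 12 1 + (a - 1) * (y 12 2 + y 12 3) = 0 := by
    apply mul_left_cancel₀ s0
    linear_combination e10_12 - (y 12 0) * x100 - (y 12 1) * x101 - (y 12 2) * (x102 + hs) - (y 12 3) * hs
  obtain ⟨r, hr⟩ : ∃ r, y 12 2 = a * (a - b) * r := ⟨y 12 2 / (a * (a - b)), by field_simp⟩
  have r0 : r ≠ 0 := by intro h; apply ny12_2; rw [hr, h]; ring
  have y123 : y 12 3 = (a + 1 - c) * (a * (a - b)) * r := by rw [h12b, hr]; ring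
  have y121 : y 12 1 = -(a * (a - 1) * (a + 2 - c)) * r := by
    apply mul_left_cancel₀ ab; linear_combination h12c - (a - 1) * hr - (a - 1) * y123
  have y120 : y 12 0 = (b * (a - 1) * (a + 2 - c) - (a + 1) * (a - b)) * r := by
    apply mul_left_cancel₀ a0; linear_combination h12a - b * y121 - (a + 1) * hr
  -- point 12
  have x120 : x 12 0 = 0 := by
    rcases mul_eq_zero.1 e12_4 with h | h
    · exact h
    · exact absurd h ny4_0
  have h12 : c * x 12 1 = b * x 12 2 := by
    apply mul_left_cancel₀ ny6_1; linear_combination c * e12_6 - (x 12 2) * e5_6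
  obtain ⟨n, hn⟩ : ∃ n, x 12 1 = b * n := ⟨x 12 1 / b, by field_simp⟩
  have x122 : x 12 2 = c * n := by
    apply mul_left_cancel₀ b0; linear_combination -h12 + c * hn
  have n0 : n ≠ 0 := by intro h; apply p12_5; rw [hn, h, x120]; ring
  have h12e : x 12 3 * D = n * (b * (a ^ 2 - a * c + a - 2 * b + c) + c * ((a - b) * (c - 2 * b))) := by
    apply mul_left_cancel₀ q0
    linear_combination -e12_0 + (y 0 0) * x120 + (y 0 1) * hn + (y 0 2) * x122 + (b * n) * y01 + (c * n) * y02
      + (x 12 3) * y03 + q * (x 12 3) * hD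
  obtain ⟨S, hS⟩ : ∃ S, S = b * (a - 1) * (a + 2 - c) - c * (a - b) := ⟨_, rfl⟩
  have h12f : x 12 3 * D = n * S := by
    apply mul_left_cancel₀ r0; apply mul_left_cancel₀ a0
    linear_combination e12_12 - (y 12 0) * x120 - (y 12 1) * hn - (y 12 2) * x122 - (b * n) * y121 - (c * n) * hr
      - (x 12 3) * y123 + a * r * (x 12 3) * hD - a * r * n * hS
  have S0 : S ≠ 0 := by
    intro h
    have h2 : x 12 3 * D = 0 := by rw [h12f, h]; ring
    rcases mul_eq_zero.1 h2 with h3 | h3
    · apply p12_3; rw [h3]; ring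
    · exact D0 h3
  have E1 : c * a * (2 * b - c - 1) = b * (2 * b * c - 2 * b - c ^ 2 - c + 2) := by
    apply mul_left_cancel₀ n0
    linear_combination h12e - h12f - n * hS
  -- plane 1
  have h1a : (b - 1) * y 1 1 + (a - 1) * y 1 2 = 0 := by
    apply mul_left_cancel₀ u0
    linear_combination e9_1 - (y 1 1) * x91 - (y 1 2) * (x92 + hu) - (y 1 3) * x93
  obtain ⟨τ, hτ⟩ : ∃ τ, y 1 1 = (a - 1) * τ := ⟨y 1 1 / (a - 1), by field_simp⟩
  have y12 : y 1 2 = -(b - 1) * τ := by
    apply mul_left_cancel₀ a1; linear_combination h1a - (b - 1) * hτ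
  have τ0 : τ ≠ 0 := by intro h; apply ny1_1; rw [hτ, h]; ring
  have y13 : S * y 1 3 = D * (c * (b - 1) - b * (a - 1)) * τ := by
    apply mul_left_cancel₀ n0
    linear_combination D * e12_1 - D * (y 1 1) * hn - D * (y 1 2) * x122 - D * b * n * hτ - D * c * n * y12
      - (y 1 3) * h12f
  -- plane 7
  have h7a : D * y 7 0 = (b - 1) * k * y 7 3 := by
    apply mul_left_cancel₀ g0
    linear_combination -e6_7 + (y 7 0) * x60 + (y 7 2) * x62 + (y 7 3) * (x61 + hg')
      + (k * g') * e5_7 + g' * (y 7 0) * hD - a * g' * (y 7 0) * hk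
  obtain ⟨σ, hσ⟩ : ∃ σ, y 7 3 = c * D * σ := ⟨y 7 3 / (c * D), by field_simp⟩
  have σ0 : σ ≠ 0 := by intro h; apply ny7_3; rw [hσ, h]; ring
  have y70 : y 7 0 = c * (b - 1) * k * σ := by
    apply mul_left_cancel₀ D0; linear_combination h7a + (b - 1) * k * hσ
  have y72 : y 7 2 = -(a * (b - 1) * k + D) * σ := by
    apply mul_left_cancel₀ c0; linear_combination e5_7 - a * y70 - hσ
  -- point 7
  have x72 : x 7 2 = x 7 0 := by
    apply mul_left_cancel₀ ny9_2; linear_combination e7_9 - (x 7 0) * e8_9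
  have x73 : x 7 3 = x 7 1 := by
    apply mul_left_cancel₀ ny8_3; linear_combination e7_8 - (x 7 1) * e8_8
  have x710 : x 7 1 ≠ 0 := by intro h; apply p7_3; rw [x73, h]; ring
  obtain ⟨ρ, hρ⟩ : ∃ ρ, x 7 0 = ρ * x 7 1 := ⟨x 7 0 / x 7 1, by field_simp⟩
  have R7 : ρ * (c * (b - 1) * k - a * (b - 1) * k - D) + c * D = 0 := by
    apply mul_left_cancel₀ x710; apply mul_left_cancel₀ σ0
    linear_combination e7_7 - (y 7 0 + y 7 2) * hρ - (y 7 2) * x72 - (y 7 3) * x73
      - (x 7 1) * ρ * y70 - (x 7 1) * ρ * y72 - (x 7 1) * hσ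
  have R12 : ρ * ((b * (a - 1) * (a + 2 - c) - (a + 1) * (a - b)) + a * (a - b))
      + (-(a * (a - 1) * (a + 2 - c)) + (a + 1 - c) * (a * (a - b))) = 0 := by
    apply mul_left_cancel₀ x710; apply mul_left_cancel₀ r0
    linear_combination e7_12 - (y 12 0 + y 12 2) * hρ - (y 12 2) * x72 - (y 12 3) * x73
      - (x 7 1) * ρ * (y120 + hr) - (x 7 1) * (y121 + y123)
  have R1 : -ρ * (b - 1) * S + (a - 1) * S + D * (c * (b - 1) - b * (a - 1)) = 0 := by
    apply mul_left_cancel₀ x710; apply mul_left_cancel₀ τ0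
    linear_combination S * e7_1 - S * (y 1 2) * (x72 + hρ) - S * (y 1 3) * x73 - S * (x 7 1) * ρ * y12
      - S * (x 7 1) * hτ - (x 7 1) * y13
  -- final elimination
  obtain ⟨m, hm⟩ : ∃ m, m = 2 * b - c - 1 := ⟨_, rfl⟩
  have m0 : m ≠ 0 := by
    intro h
    have h2 : b * (c - 1) = 0 := by
      linear_combination E1 - (c * a) * (h - hm) + b * (c - 1) * (h - hm)
    exact (mul_ne_zero b0 c1) h2
  have hb : b = (m + c + 1) / 2 := by linear_combination -(1/2) * hm
  have ha' : 2 * c * m * a = (m + c + 1) * (c - 1) * (m - 1) := by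
    rw [hb] at E1; linear_combination 2 * E1
  have ha : a = (m + c + 1) * (c - 1) * (m - 1) / (2 * c * m) := by
    field_simp; linear_combination ha'
  have nA : m + c + 1 ≠ 0 := by intro h; apply b0; rw [hb, h]; ring
  have nB : m + c - 1 ≠ 0 := by intro h; apply b1; rw [hb]; linear_combination h / 2
  have nC : m - 1 ≠ 0 := by
    intro h; apply a0; rw [ha, h]; ring
  have nD : m + 1 ≠ 0 := by intro h; apply c2b; linear_combination -h + hm
  have nE : m - c + 1 ≠ 0 := by intro h; apply bc; linear_combination h / 2 - hm / 2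
  have hk' : 4 * c * m * k = -2 * ((m + c - 1) * (m + 1) * (c + 1)) := by
    rw [hk, ha, hb]; field_simp; ring
  have nF : c + 1 ≠ 0 := by
    intro h
    have h2 : 4 * c * m * k = 0 := by rw [hk', h]; ring
    exact (mul_ne_zero (mul_ne_zero (mul_ne_zero (by norm_num) c0) m0) k0) h2
  have hac' : 2 * c * m * (a - c + 1) = (c - 1) * (m - c - 1) * (m + 1) := by
    rw [ha]; field_simp; ring
  have nG : m - c - 1 ≠ 0 := by
    intro h
    have h2 : 2 * c * m * (a - c + 1) = 0 := by rw [hac', h]; ring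
    exact (mul_ne_zero (mul_ne_zero (mul_ne_zero (by norm_num) c0) m0) ac1) h2
  have hD' : 8 * c ^ 2 * m ^ 2 * D = -2 * ((m + c + 1) * (c - 1) * (m + c - 1) * (m - c - 1) * (m + 1)) := by
    rw [hD, ha, hb]; field_simp; ring
  have hS' : 8 * c ^ 2 * m ^ 2 * S = (m + c + 1) * (c - 1) * (m + c - 1) * (m + 1) *
      (m^2*c - m^2 - m*c^2 + m*c + c^2 + 2*c + 1) := by
    rw [hS, ha, hb]; field_simp; ring
  have R1' : ρ * (m^2*c - m^2 - m*c^2 + m*c + c^2 + 2*c + 1)
      = m^2*c - m^2 - m*c^2 - m*c - 2*m + 3*c^2 + 2*c - 1 := by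
    have h : (m + c + 1) * (c - 1) * (m + c - 1)^2 * (m + 1) ≠ 0 :=
      mul_ne_zero (mul_ne_zero (mul_ne_zero nA c1) (pow_ne_zero 2 nB)) nD
    apply mul_left_cancel₀ h
    have h3 : 16 * c ^ 2 * m ^ 2 * (-ρ * (b - 1) * S + (a - 1) * S + D * (c * (b - 1) - b * (a - 1))) =
        (m + c + 1) * (c - 1) * (m + c - 1)^2 * (m + 1) *
        (-ρ * (m^2*c - m^2 - m*c^2 + m*c + c^2 + 2*c + 1) + (m^2*c - m^2 - m*c^2 - m*c - 2*m + 3*c^2 + 2*c - 1)) := by
      rw [hS, hD, ha, hb]; field_simp; ring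
    rw [R1] at h3
    linear_combination h3
  have R12' : ρ * (m^3*c - m^3 - m^2*c^2 + 2*m^2*c - m^2 - m*c + m + c^2 + 2*c + 1)
      = (m - 1) * (m^2*c - m^2 - m*c^2 + 3*m*c - 2*m - c^2 - 2*c - 1) := by
    have h : (m + c + 1) * (c - 1) * (m + c - 1) ≠ 0 := mul_ne_zero (mul_ne_zero nA c1) nB
    apply mul_left_cancel₀ h
    have h3 : 8 * c ^ 2 * m ^ 2 * (ρ * ((b * (a - 1) * (a + 2 - c) - (a + 1) * (a - b)) + a * (a - b))
      + (-(a * (a - 1) * (a + 2 - c)) + (a + 1 - c) * (a * (a - b)))) =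
        (m + c + 1) * (c - 1) * (m + c - 1) *
        (ρ * (m^3*c - m^3 - m^2*c^2 + 2*m^2*c - m^2 - m*c + m + c^2 + 2*c + 1)
         - (m - 1) * (m^2*c - m^2 - m*c^2 + 3*m*c - 2*m - c^2 - 2*c - 1)) := by
      rw [ha, hb]; field_simp; ring
    rw [R12] at h3
    linear_combination -h3
  have R7' : ρ * (m^3*c^2 - m^3 - 3*m^2*c^2 - m^2 - m*c^4 - 2*m*c^3 + 2*m*c + m - c^4 - 2*c^3 + 2*c + 1)
      = 2 * c * (m + c + 1) * (c - 1) * (m - c - 1) := by
    have h : (m + c - 1) * (m + 1) ≠ 0 := mul_ne_zero nB nD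
    apply mul_left_cancel₀ h
    have h3 : 8 * c ^ 2 * m ^ 2 * (ρ * (c * (b - 1) * k - a * (b - 1) * k - D) + c * D) =
        (m + c - 1) * (m + 1) *
        (ρ * (m^3*c^2 - m^3 - 3*m^2*c^2 - m^2 - m*c^4 - 2*m*c^3 + 2*m*c + m - c^4 - 2*c^3 + 2*c + 1)
         - 2 * c * (m + c + 1) * (c - 1) * (m - c - 1)) := by
      rw [hk, hD, ha, hb]; field_simp; ring
    rw [R7] at h3
    linear_combination -h3
  have hQ2 : m^2*c - m^2 - m*c^2 + m*c + c^2 + 2*c + 1 ≠ 0 := by
    intro h
    rw [h, mul_zero] at hS'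
    exact (mul_ne_zero (mul_ne_zero (mul_ne_zero (by norm_num) (pow_ne_zero 2 c0)) (pow_ne_zero 2 m0)) S0) hS'
  obtain ⟨F, hmc⟩ := elim1 m c ρ c0 c1 nC nD nF nG hQ2 R1' R12' R7'
  have hcb : 2 * c * b = c + 2 := by rw [hb]; linear_combination hmc
  have hca : c * a = 2 - 2 * c + c ^ 2 := by
    apply mul_left_cancel₀ m0; apply mul_left_cancel₀ (pow_ne_zero 2 c0)
    linear_combination (c^2 / 2) * ha' + (1/2) * ((c - 1) * (m * c + 2) - 2 * c * (2 - 2 * c + c^2)) * hmc
      + (1/2) * (c - 2) * F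
  refine ⟨c0, hcb, hca, F, ?_⟩
  have eb : b = (c + 2) / (2 * c) := by field_simp; linear_combination hcb
  have ea : a = (2 - 2 * c + c ^ 2) / c := by field_simp; linear_combination hca
  have n2 : c - 2 ≠ 0 := by
    intro h
    have : 2 * c * (b - 1) = 0 := by linear_combination hcb - h
    exact (mul_ne_zero (mul_ne_zero (by norm_num) c0) b1) this
  have n21 : 2 * c - 1 ≠ 0 := by
    intro h
    have : 2 * c * (a - b) = 0 := by linear_combination 2 * hca - hcb + (c - 2) * h
    exact (mul_ne_zero (mul_ne_zero (by norm_num) c0) ab) this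
  have ek : k = c - 2 := by rw [hk, ea, eb]; field_simp; ring
  have eD : D = -((2 * c - 1) * (c - 2)^2) / (2 * c^2) := by rw [hD, ea, eb]; field_simp; ring
  have eS : 2 * c^3 * S = -((c - 2)^2 * (2 * c - 1)) := by
    have h : 2 * c^3 * S = (c - 2) * (-2*c^4 + c^3 + 2*c^2 + 2*c - 4) := by
      rw [hS, ea, eb]; field_simp; ring
    rw [h]; linear_combination -(c - 2) * F
  intro z
  refine ⟨?_, ?_, ?_, ?_, ?_⟩
  · intro h
    have h2 : z 2 * y 2 2 + z 3 * y 2 3 = 0 := by simpa [dot4, y2_0, y2_1] using h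
    apply mul_left_cancel₀ ny2_2; linear_combination h2 - (z 3) * e8_2
  · intro h
    have h2 : z 0 * y 5 0 + z 1 * y 5 1 = 0 := by simpa [dot4, y5_2, y5_3] using h
    apply mul_left_cancel₀ ny5_0
    linear_combination 2 * c * b * h2 - 2 * c * (z 1) * e5_5 - (z 0) * (y 5 0) * hcb + 2 * (z 1) * (y 5 0) * hca
  · intro h
    have h2 : z 0 * y 7 0 + z 2 * y 7 2 + z 3 * y 7 3 = 0 := by simpa [dot4, y7_1] using h
    have h3 : (c - 2)^2 ≠ 0 := pow_ne_zero 2 n2
    apply mul_left_cancel₀ h3; apply mul_left_cancel₀ σ0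
    rw [y70, y72, hσ, eD, ek, ea, eb] at h2
    field_simp at h2
    linear_combination h2
  · intro h
    have h2 : z 1 * y 1 1 + z 2 * y 1 2 + z 3 * y 1 3 = 0 := by simpa [dot4, y1_0] using h
    have h3 : (c - 2)^3 * (2 * c - 1) ≠ 0 := mul_ne_zero (pow_ne_zero 3 n2) n21
    apply mul_left_cancel₀ h3; apply mul_left_cancel₀ τ0
    have h4 : τ * (z 1 * (a - 1) * S - z 2 * (b - 1) * S + z 3 * (D * (c * (b - 1) - b * (a - 1)))) = 0 := by
      linear_combination S * h2 - S * (z 1) * hτ - S * (z 2) * y12 - (z 3) * y13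
    have h5 : 4 * c^4 * (τ * (z 1 * (a - 1) * S - z 2 * (b - 1) * S + z 3 * (D * (c * (b - 1) - b * (a - 1))))) = 0 := by
      rw [h4, mul_zero]
    have h6 : 4 * c^4 * (τ * (z 1 * (a - 1) * S - z 2 * (b - 1) * S + z 3 * (D * (c * (b - 1) - b * (a - 1)))))
      = τ * (2 * (2 * c^3 * S) * (z 1 * (c * (a - 1)) - z 2 * (c * (b - 1)))
          + z 3 * (2 * c^2 * D) * (2 * c^2 * (c * (b - 1) - b * (a - 1)))) := by ring
    have h7 : 2 * c^2 * D = -((2 * c - 1) * (c - 2)^2) := by rw [eD]; field_simp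
    have h8 : 2 * c^2 * (c * (b - 1) - b * (a - 1)) = (2 - c) * (2 * c^2 + c - 2) := by
      rw [ea, eb]; field_simp; ring
    have h9 : c * (a - 1) = (c - 1) * (c - 2) := by linear_combination hca
    have h10 : c * (b - 1) = (2 - c) / 2 := by linear_combination (1/2) * hcb
    rw [h6, eS, h7, h8, h9, h10] at h5
    linear_combination -h5
  · intro h
    have h2 : z 0 * y 0 0 + z 1 * y 0 1 + z 2 * y 0 2 + z 3 * y 0 3 = 0 := by simpa [dot4] using h
    apply mul_left_cancel₀ n2; apply mul_left_cancel₀ q0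
    rw [hq, y01, y02, y03, ek, ea, eb] at h2
    field_simp at h2
    linear_combination h2

end Pool.Agent.Helper425.RS
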