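import Pool.Agent.Helper425.RankStrong.Core

set_option autoImplicit false

namespace Pool.Agent.Helper425.RS

theorem cr0 (c : ℝ) (z : Fin 4 → ℝ) (F : 2*c^4 - c^3 - 4*c^2 + 3*c + 2 = 0)
    (h1 : (2*c - 2) * z 1 + z 2 + (2 - c - 2*c^2) * z 3 = 0)
    (h2 : z 2 = z 3)
    (h5 : (2 + c) * z 0 = (4 - 4 * c + 2 * c^2) * z 1)
    (h7 : - c^2 * z 0 + (1 + c^2) * z 2 + (c - 2*c^2) * z 3 = 0)
    : z 0 = 0 ∧ z 1 = 0 ∧ z 2 = 0 ∧ z 3 = 0 := by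
  refine ⟨?_, ?_, ?_, ?_⟩
  · linear_combination ((1) + (-1/4)*c + (-3/4)*c^2 + (1/2)*c^3) * h1 + ((15/2) + (-19/4)*c + (-11/4)*c^2 + (5/2)*c^3) * h2 + ((-41/100) + (6/25)*c + (7/20)*c^2 + (-11/50)*c^3) * h5 + ((-69/10) + (23/5)*c + (3)*c^2 + (-14/5)*c^3) * h7 - (((-91/100) + (7/5)*c) * z 0 + ((-9/50) + (11/50)*c) * z 1 + ((4/5) + (-7/5)*c) * z 2 + ((-11/4) + (23/10)*c) * z 3) * F
  · linear_combination ((7/20) + (9/40)*c + (-1/8)*c^2 + (-1/20)*c^3) * h1 + ((51/20) + (7/40)*c + (-11/8)*c^2 + (-3/20)*c^3) * h2 + ((-101/250) + (-61/250)*c + (19/100)*c^2 + (33/250)*c^3) * h5 + ((-49/25) + (69/100)*c + (11/10)*c^2 + (-8/25)*c^3) * h7 - (((-101/250) + (4/25)*c) * z 0 + ((-21/500) + (-33/250)*c) * z 1 + ((47/100) + (-4/25)*c) * z 2 + ((-37/40) + (37/100)*c) * z 3) * F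
  · linear_combination ((3/10) + (-9/20)*c + (1/4)*c^2 + (1/10)*c^3) * h1 + ((29/10) + (-7/20)*c + (-5/4)*c^2 + (3/10)*c^3) * h2 + ((-29/125) + (6/125)*c + (1/50)*c^2 + (7/125)*c^3) * h5 + ((-42/25) + (51/50)*c + (4/5)*c^2 + (-14/25)*c^3) * h7 - (((-29/125) + (7/25)*c) * z 0 + ((41/250) + (-7/125)*c) * z 1 + ((13/50) + (-7/25)*c) * z 2 + ((-23/20) + (23/50)*c) * z 3) * F
  · linear_combination ((3/10) + (-9/20)*c + (1/4)*c^2 + (1/10)*c^3) * h1 + ((19/10) + (-7/20)*c + (-5/4)*c^2 + (3/10)*c^3) * h2 + ((-29/125) + (6/125)*c + (1/50)*c^2 + (7/125)*c^3) * h5 + ((-42/25) + (51/50)*c + (4/5)*c^2 + (-14/25)*c^3) * h7 - (((-29/125) + (7/25)*c) * z 0 + ((41/250) + (-7/125)*c) * z 1 + ((13/50) + (-7/25)*c) * z 2 + ((-23/20) + (23/50)*c) * z 3) * F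

theorem cr1 (c : ℝ) (z : Fin 4 → ℝ) (F : 2*c^4 - c^3 - 4*c^2 + 3*c + 2 = 0)
    (h0 : (2*c + c^2 - 2*c^3) * z 0 + (6*c - 4) * z 1 + (2*c^3 - 3*c^2 - 3*c + 2) * z 2 + (2*c^2 - 5*c + 2) * z 3 = 0)
    (h2 : z 2 = z 3)
    (h5 : (2 + c) * z 0 = (4 - 4 * c + 2 * c^2) * z 1)
    (h7 : - c^2 * z 0 + (1 + c^2) * z 2 + (c - 2*c^2) * z 3 = 0)
    : z 0 = 0 ∧ z 1 = 0 ∧ z 2 = 0 ∧ z 3 = 0 := by
  refine ⟨?_, ?_, ?_, ?_⟩
  · linear_combination ((161/352) + (-3/16)*c + (-91/352)*c^2 + (39/176)*c^3) * h0 + ((199/22) + (-6)*c + (-79/22)*c^2 + (37/11)*c^3) * h2 + ((-399/880) + (13/40)*c + (65/176)*c^2 + (-89/440)*c^3) * h5 + ((-90/11) + (6)*c + (37/11)*c^2 + (-38/11)*c^3) * h7 - (((-839/880) + (699/352)*c + (-39/176)*c^2) * z 0 + ((-7/880) + (89/440)*c) * z 1 + ((313/352) + (-777/352)*c + (39/176)*c^2) * z 2 + ((-1431/352) + (647/176)*c) * z 3) * F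
  · linear_combination ((53/352) + (1/16)*c + (-7/352)*c^2 + (3/176)*c^3) * h0 + ((61/22) + (-1/2)*c + (-17/11)*c^2 + (2/11)*c^3) * h2 + ((-359/880) + (-7/40)*c + (49/176)*c^2 + (71/440)*c^3) * h5 + ((-23/11) + (3/2)*c + (13/11)*c^2 + (-8/11)*c^3) * h7 - (((-359/880) + (135/352)*c + (-3/176)*c^2) * z 0 + ((13/880) + (-71/440)*c) * z 1 + ((173/352) + (-141/352)*c + (3/176)*c^2) * z 2 + ((-435/352) + (131/176)*c) * z 3) * F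
  · linear_combination ((15/88) + (-1/4)*c + (3/88)*c^2 + (5/44)*c^3) * h0 + ((42/11) + (-1)*c + (-18/11)*c^2 + (6/11)*c^3) * h2 + ((-381/1100) + (-3/50)*c + (27/220)*c^2 + (49/550)*c^3) * h5 + ((-147/55) + (8/5)*c + (17/11)*c^2 + (-54/55)*c^3) * h7 - (((-381/1100) + (201/440)*c + (-5/44)*c^2) * z 0 + ((387/1100) + (-49/550)*c) * z 1 + ((107/440) + (-251/440)*c + (5/44)*c^2) * z 2 + ((-153/88) + (241/220)*c) * z 3) * F
  · linear_combination ((15/88) + (-1/4)*c + (3/88)*c^2 + (5/44)*c^3) * h0 + ((31/11) + (-1)*c + (-18/11)*c^2 + (6/11)*c^3) * h2 + ((-381/1100) + (-3/50)*c + (27/220)*c^2 + (49/550)*c^3) * h5 + ((-147/55) + (8/5)*c + (17/11)*c^2 + (-54/55)*c^3) * h7 - (((-381/1100) + (201/440)*c + (-5/44)*c^2) * z 0 + ((387/1100) + (-49/550)*c) * z 1 + ((107/440) + (-251/440)*c + (5/44)*c^2) * z 2 + ((-153/88) + (241/220)*c) * z 3) * F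

theorem cr2 (c : ℝ) (z : Fin 4 → ℝ) (F : 2*c^4 - c^3 - 4*c^2 + 3*c + 2 = 0)
    (h0 : (2*c + c^2 - 2*c^3) * z 0 + (6*c - 4) * z 1 + (2*c^3 - 3*c^2 - 3*c + 2) * z 2 + (2*c^2 - 5*c + 2) * z 3 = 0)
    (h1 : (2*c - 2) * z 1 + z 2 + (2 - c - 2*c^2) * z 3 = 0)
    (h5 : (2 + c) * z 0 = (4 - 4 * c + 2 * c^2) * z 1)
    (h7 : - c^2 * z 0 + (1 + c^2) * z 2 + (c - 2*c^2) * z 3 = 0)
    : z 0 = 0 ∧ z 1 = 0 ∧ z 2 = 0 ∧ z 3 = 0 := by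
  refine ⟨?_, ?_, ?_, ?_⟩
  · linear_combination ((-173/112) + (101/56)*c + (31/112)*c^2 + (-43/56)*c^3) * h0 + ((51/14) + (-4)*c + (-3/14)*c^2 + (11/7)*c^3) * h1 + ((41/280) + (9/20)*c + (1/56)*c^2 + (-9/140)*c^3) * h5 + ((15/14) + (5/7)*c + (-23/14)*c^2 + (3/7)*c^3) * h7 - (((-99/280) + (-55/112)*c + (43/56)*c^2) * z 0 + ((-237/280) + (9/140)*c) * z 1 + ((13/16) + (141/112)*c + (-43/56)*c^2) * z 2 + ((235/112) + (-155/56)*c) * z 3) * F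
  · linear_combination ((-17/112) + (57/56)*c + (3/112)*c^2 + (-31/56)*c^3) * h0 + ((9/14) + (-23/14)*c + (1/7)*c^2 + (8/7)*c^3) * h1 + ((-1/280) + (67/140)*c + (11/56)*c^2 + (-11/140)*c^3) * h5 + ((9/14) + (15/14)*c + (-9/14)*c^2 + (-5/7)*c^3) * h7 - (((-1/280) + (37/112)*c + (31/56)*c^2) * z 0 + ((-233/280) + (11/140)*c) * z 1 + ((55/112) + (25/112)*c + (-31/56)*c^2) * z 2 + ((55/112) + (-55/56)*c) * z 3) * F
  · linear_combination ((-19/56) + (27/28)*c + (9/56)*c^2 + (-13/28)*c^3) * h0 + ((6/7) + (-17/7)*c + (2/7)*c^2 + (8/7)*c^3) * h1 + ((41/700) + (163/350)*c + (13/140)*c^2 + (11/350)*c^3) * h5 + ((47/35) + (37/35)*c + (-6/7)*c^2 + (-16/35)*c^3) * h7 - (((41/700) + (19/280)*c + (13/28)*c^2) * z 0 + ((-207/700) + (-11/350)*c) * z 1 + ((73/280) + (111/280)*c + (-13/28)*c^2) * z 2 + ((29/56) + (-23/20)*c) * z 3) * F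
  · linear_combination ((-31/112) + (31/56)*c + (3/16)*c^2 + (-25/56)*c^3) * h0 + ((1) + (-9/7)*c + (-2/7)*c^2 + (8/7)*c^3) * h1 + ((-1/200) + (299/700)*c + (9/280)*c^2 + (-97/700)*c^3) * h5 + ((-2/35) + (18/35)*c + (-24/35)*c^3) * h7 - (((-1/200) + (87/560)*c + (25/56)*c^2) * z 0 + ((-611/1400) + (97/700)*c) * z 1 + ((109/560) + (163/560)*c + (-25/56)*c^2) * z 2 + ((25/112) + (-253/280)*c) * z 3) * F

theorem cr5 (c : ℝ) (z : Fin 4 → ℝ) (F : 2*c^4 - c^3 - 4*c^2 + 3*c + 2 = 0)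
    (h0 : (2*c + c^2 - 2*c^3) * z 0 + (6*c - 4) * z 1 + (2*c^3 - 3*c^2 - 3*c + 2) * z 2 + (2*c^2 - 5*c + 2) * z 3 = 0)
    (h1 : (2*c - 2) * z 1 + z 2 + (2 - c - 2*c^2) * z 3 = 0)
    (h2 : z 2 = z 3)
    (h7 : - c^2 * z 0 + (1 + c^2) * z 2 + (c - 2*c^2) * z 3 = 0)
    : z 0 = 0 ∧ z 1 = 0 ∧ z 2 = 0 ∧ z 3 = 0 := by
  refine ⟨?_, ?_, ?_, ?_⟩
  · linear_combination ((-275/136) + (103/68)*c + (81/136)*c^2 + (-53/68)*c^3) * h0 + ((161/34) + (-113/34)*c + (-23/17)*c^2 + (28/17)*c^3) * h1 + ((-10/17) + (53/34)*c + (13/34)*c^2 + (-19/17)*c^3) * h2 + ((43/34) + (-20/17)*c + (-39/34)*c^2 + (23/17)*c^3) * h7 - (((-1/2) + (-173/136)*c + (53/68)*c^2) * z 0 + ((-47/68)) * z 1 + ((93/136) + (279/136)*c + (-53/68)*c^2) * z 2 + ((409/136) + (-257/68)*c) * z 3) * F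
  · linear_combination ((-83/68) + (39/34)*c + (31/68)*c^2 + (-27/34)*c^3) * h0 + ((97/34) + (-59/34)*c + (-35/34)*c^2 + (25/17)*c^3) * h1 + ((-49/17) + (61/17)*c + (45/34)*c^2 + (-37/17)*c^3) * h2 + ((107/34) + (-47/17)*c + (-25/17)*c^2 + (26/17)*c^3) * h7 - (((-83/68)*c + (27/34)*c^2) * z 0 + ((-31/34)) * z 1 + ((23/68) + (137/68)*c + (-27/34)*c^2) * z 2 + ((209/68) + (-129/34)*c) * z 3) * F
  · linear_combination ((-45/34) + (15/17)*c + (25/34)*c^2 + (-13/17)*c^3) * h0 + ((53/17) + (-65/34)*c + (-57/34)*c^2 + (31/17)*c^3) * h1 + ((-39/17) + (103/34)*c + (49/34)*c^2 + (-35/17)*c^3) * h2 + ((49/17) + (-44/17)*c + (-14/17)*c^2 + (20/17)*c^3) * h7 - (((-45/34)*c + (13/17)*c^2) * z 0 + ((-8/17)) * z 1 + ((1/34) + (71/34)*c + (-13/17)*c^2) * z 2 + ((50/17) + (-64/17)*c) * z 3) * F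
  · linear_combination ((-45/34) + (15/17)*c + (25/34)*c^2 + (-13/17)*c^3) * h0 + ((53/17) + (-65/34)*c + (-57/34)*c^2 + (31/17)*c^3) * h1 + ((-56/17) + (103/34)*c + (49/34)*c^2 + (-35/17)*c^3) * h2 + ((49/17) + (-44/17)*c + (-14/17)*c^2 + (20/17)*c^3) * h7 - (((-45/34)*c + (13/17)*c^2) * z 0 + ((-8/17)) * z 1 + ((1/34) + (71/34)*c + (-13/17)*c^2) * z 2 + ((50/17) + (-64/17)*c) * z 3) * F

theorem cr7 (c : ℝ) (z : Fin 4 → ℝ) (F : 2*c^4 - c^3 - 4*c^2 + 3*c + 2 = 0)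
    (h0 : (2*c + c^2 - 2*c^3) * z 0 + (6*c - 4) * z 1 + (2*c^3 - 3*c^2 - 3*c + 2) * z 2 + (2*c^2 - 5*c + 2) * z 3 = 0)
    (h1 : (2*c - 2) * z 1 + z 2 + (2 - c - 2*c^2) * z 3 = 0)
    (h2 : z 2 = z 3)
    (h5 : (2 + c) * z 0 = (4 - 4 * c + 2 * c^2) * z 1)
    : z 0 = 0 ∧ z 1 = 0 ∧ z 2 = 0 ∧ z 3 = 0 := by
  refine ⟨?_, ?_, ?_, ?_⟩
  · linear_combination ((-8365/4768) + (3293/2384)*c + (3743/4768)*c^2 + (-2155/2384)*c^3) * h0 + ((665/149) + (-857/298)*c + (-693/298)*c^2 + (347/149)*c^3) * h1 + ((71/298) + (5/298)*c + (76/149)*c^2 + (-86/149)*c^3) * h2 + ((-621/11920) + (997/5960)*c + (579/2384)*c^2 + (-891/5960)*c^3) * h5 - (((-6581/11920) + (-3743/4768)*c + (2155/2384)*c^2) * z 0 + ((-10133/11920) + (891/5960)*c) * z 1 + ((2843/4768) + (8053/4768)*c + (-2155/2384)*c^2) * z 2 + ((12347/4768) + (-7707/2384)*c) * z 3) * F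
  · linear_combination ((-1585/4768) + (1345/2384)*c + (571/4768)*c^2 + (-823/2384)*c^3) * h0 + ((305/298) + (-467/596)*c + (-161/596)*c^2 + (195/298)*c^3) * h1 + ((79/149) + (549/596)*c + (-207/596)*c^2 + (-175/298)*c^3) * h2 + ((-2341/11920) + (97/5960)*c + (363/2384)*c^2 + (269/5960)*c^3) * h5 - (((-2341/11920) + (-571/4768)*c + (823/2384)*c^2) * z 0 + ((-5553/11920) + (-269/5960)*c) * z 1 + ((2119/4768) + (2217/4768)*c + (-823/2384)*c^2) * z 2 + ((2031/4768) + (-2383/2384)*c) * z 3) * F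
  · linear_combination ((-935/2384) + (455/1192)*c + (397/2384)*c^2 + (-305/1192)*c^3) * h0 + ((163/149) + (-169/149)*c + (-12/149)*c^2 + (92/149)*c^3) * h1 + ((167/149) + (102/149)*c + (-58/149)*c^2 + (-52/149)*c^3) * h2 + ((-659/5960) + (343/2980)*c + (-19/1192)*c^2 + (91/2980)*c^3) * h5 - (((-659/5960) + (-397/2384)*c + (305/1192)*c^2) * z 0 + ((-527/5960) + (-91/2980)*c) * z 1 + ((513/2384) + (1007/2384)*c + (-305/1192)*c^2) * z 2 + ((337/2384) + (-1041/1192)*c) * z 3) * F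
  · linear_combination ((-935/2384) + (455/1192)*c + (397/2384)*c^2 + (-305/1192)*c^3) * h0 + ((163/149) + (-169/149)*c + (-12/149)*c^2 + (92/149)*c^3) * h1 + ((18/149) + (102/149)*c + (-58/149)*c^2 + (-52/149)*c^3) * h2 + ((-659/5960) + (343/2980)*c + (-19/1192)*c^2 + (91/2980)*c^3) * h5 - (((-659/5960) + (-397/2384)*c + (305/1192)*c^2) * z 0 + ((-527/5960) + (-91/2980)*c) * z 1 + ((513/2384) + (1007/2384)*c + (-305/1192)*c^2) * z 2 + ((337/2384) + (-1041/1192)*c) * z 3) * F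

theorem core2 (a b c : ℝ) (x y : Fin 13 → Fin 4 → ℝ) (l : Fin 13)
    (H : ∀ i j : Fin 13, i ≠ 0 → (dot4 (x i) (y j) = 0 ↔ inc i j = true))
    (H0 : ∀ j : Fin 13, j ≠ l → inc 0 j = true → dot4 (x 0) (y j) = 0)
    (x1 : x 1 = ![1,0,0,0]) (x2 : x 2 = ![0,1,0,0]) (x3 : x 3 = ![0,0,1,0])
    (x4 : x 4 = ![0,0,0,1]) (x8 : x 8 = ![1,1,1,1]) (x5 : x 5 = ![a,b,c,1]) :
    x 0 = 0 := by
  obtain ⟨-, -, -, F, hz⟩ := core1 a b c x y H x1 x2 x3 x4 x8 x5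
  obtain ⟨k2, k5, k7, k1, k0⟩ := hz (x 0)
  have fin : (x 0 0 = 0 ∧ x 0 1 = 0 ∧ x 0 2 = 0 ∧ x 0 3 = 0) → x 0 = 0 := by
    rintro ⟨h0, h1, h2, h3⟩
    funext i; fin_cases i <;> simpa
  apply fin
  by_cases e0 : l = 0
  · subst e0
    exact cr0 c (x 0) F (k1 (H0 1 (by decide) (by decide))) (k2 (H0 2 (by decide) (by decide)))
      (k5 (H0 5 (by decide) (by decide))) (k7 (H0 7 (by decide) (by decide)))
  by_cases e1 : l = 1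
  · subst e1
    exact cr1 c (x 0) F (k0 (H0 0 (by decide) (by decide))) (k2 (H0 2 (by decide) (by decide)))
      (k5 (H0 5 (by decide) (by decide))) (k7 (H0 7 (by decide) (by decide)))
  by_cases e2 : l = 2
  · subst e2
    exact cr2 c (x 0) F (k0 (H0 0 (by decide) (by decide))) (k1 (H0 1 (by decide) (by decide)))
      (k5 (H0 5 (by decide) (by decide))) (k7 (H0 7 (by decide) (by decide)))
  by_cases e5 : l = 5
  · subst e5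
    exact cr5 c (x 0) F (k0 (H0 0 (by decide) (by decide))) (k1 (H0 1 (by decide) (by decide)))
      (k2 (H0 2 (by decide) (by decide))) (k7 (H0 7 (by decide) (by decide)))
  · exact cr7 c (x 0) F (k0 (H0 0 (Ne.symm e0) (by decide))) (k1 (H0 1 (Ne.symm e1) (by decide)))
      (k2 (H0 2 (Ne.symm e2) (by decide))) (k5 (H0 5 (Ne.symm e5) (by decide)))

end Pool.Agent.Helper425.RS
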