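import Pool.Agent.Helper425.RankStrong.Lower
import Pool.Agent.Helper425.RankStrong.Exist

set_option autoImplicit false

namespace Pool.Agent.Helper425.RS

open Matrix

/-- extension of a matrix on `{w // w ≠ v}` by a border. -/
def ext {V : Type*} [Fintype V] [DecidableEq V] (v : V) (A' : Matrix {w : V // w ≠ v} {w : V // w ≠ v} ℝ)
    (a : V → ℝ) : Matrix V V ℝ :=
  (Matrix.of fun (u : V) (w : {w : V // w ≠ v}) => if u = w.1 then (1:ℝ) else 0) * A' *
    (Matrix.of fun (w : {w : V // w ≠ v}) (u : V) => if w.1 = u then (1:ℝ) else 0)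
    + (Matrix.vecMulVec (Pi.single v 1) a + Matrix.vecMulVec a (Pi.single v 1))

theorem ext_rank {V : Type*} [Fintype V] [DecidableEq V] (v : V)
    (A' : Matrix {w : V // w ≠ v} {w : V // w ≠ v} ℝ) (a : V → ℝ) :
    (ext v A' a).rank ≤ A'.rank + 2 := by
  unfold ext
  refine (rank_add_le' _ _).trans ?_
  have h1 : ((Matrix.of fun (u : V) (w : {w : V // w ≠ v}) => if u = w.1 then (1:ℝ) else 0) * A' *
    (Matrix.of fun (w : {w : V // w ≠ v}) (u : V) => if w.1 = u then (1:ℝ) else 0)).rank ≤ A'.rank :=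
    (Matrix.rank_mul_le_left _ _).trans (Matrix.rank_mul_le_right _ _)
  have h2 := rank_add_le' (Matrix.vecMulVec (Pi.single v (1:ℝ)) a) (Matrix.vecMulVec a (Pi.single v (1:ℝ)))
  have h3 := Matrix.rank_vecMulVec_le (Pi.single v (1:ℝ)) a
  have h4 := Matrix.rank_vecMulVec_le a (Pi.single v (1:ℝ))
  omega

theorem ext_in {V : Type*} [Fintype V] [DecidableEq V] (v : V)
    (A' : Matrix {w : V // w ≠ v} {w : V // w ≠ v} ℝ) (a : V → ℝ) (u w : {w : V // w ≠ v}) :
    ext v A' a u w = A' u w := by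
  unfold ext
  simp only [Matrix.add_apply, Matrix.mul_apply, Matrix.of_apply, Matrix.vecMulVec_apply]
  have h1 : (Pi.single v (1:ℝ) : V → ℝ) u = 0 := Pi.single_eq_of_ne u.2 _
  have h2 : (Pi.single v (1:ℝ) : V → ℝ) w = 0 := Pi.single_eq_of_ne w.2 _
  rw [h1, h2, zero_mul, mul_zero, add_zero, add_zero]
  rw [Finset.sum_eq_single w]
  · rw [if_pos rfl, mul_one, Finset.sum_eq_single u]
    · rw [if_pos rfl, one_mul]
    · intro b _ hb
      rw [if_neg (fun h => hb (Subtype.ext h.symm)), zero_mul]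
    · intro h; exact absurd (Finset.mem_univ _) h
  · intro b _ hb
    rw [if_neg (fun h => hb (Subtype.ext h)), mul_zero]
  · intro h; exact absurd (Finset.mem_univ _) h

theorem ext_left {V : Type*} [Fintype V] [DecidableEq V] (v : V)
    (A' : Matrix {w : V // w ≠ v} {w : V // w ≠ v} ℝ) (a : V → ℝ) (u : V) (hu : u ≠ v) :
    ext v A' a v u = a u := by
  unfold ext
  simp only [Matrix.add_apply, Matrix.mul_apply, Matrix.of_apply, Matrix.vecMulVec_apply]
  have h1 : (Pi.single v (1:ℝ) : V → ℝ) u = 0 := Pi.single_eq_of_ne hu _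
  rw [h1, Pi.single_eq_same, mul_zero, add_zero, one_mul]
  have h2 : ∀ b : {w : V // w ≠ v}, (if v = b.1 then (1:ℝ) else 0) = 0 := fun b => if_neg (Ne.symm b.2)
  simp [h2]

theorem ext_right {V : Type*} [Fintype V] [DecidableEq V] (v : V)
    (A' : Matrix {w : V // w ≠ v} {w : V // w ≠ v} ℝ) (a : V → ℝ) (u : V) (hu : u ≠ v) :
    ext v A' a u v = a u := by
  unfold ext
  simp only [Matrix.add_apply, Matrix.mul_apply, Matrix.of_apply, Matrix.vecMulVec_apply]
  have h1 : (Pi.single v (1:ℝ) : V → ℝ) u = 0 := Pi.single_eq_of_ne hu _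
  rw [h1, Pi.single_eq_same, zero_mul, zero_add, mul_one]
  have h2 : ∀ b : {w : V // w ≠ v}, (if b.1 = v then (1:ℝ) else 0) = 0 := fun b => if_neg b.2
  simp [h2]

theorem ext_symm {V : Type*} [Fintype V] [DecidableEq V] (v : V)
    (A' : Matrix {w : V // w ≠ v} {w : V // w ≠ v} ℝ) (hs : A'.IsSymm) (a : V → ℝ) :
    (ext v A' a).IsSymm := by
  apply Matrix.IsSymm.ext
  intro i j
  by_cases hi : i = v
  · subst hi
    by_cases hj : j = i
    · rw [hj]
    · rw [ext_left _ _ _ _ hj, ext_right _ _ _ _ hj]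
  · by_cases hj : j = v
    · subst hj
      rw [ext_left _ _ _ _ hi, ext_right _ _ _ _ hi]
    · have h1 := ext_in v A' a ⟨i, hi⟩ ⟨j, hj⟩
      have h2 := ext_in v A' a ⟨j, hj⟩ ⟨i, hi⟩
      rw [h1, h2]
      exact hs.apply _ _

/-- bordering: deleting a vertex decreases the minimum rank by at most two. -/
theorem border {V : Type*} [Fintype V] [DecidableEq V] (G : SimpleGraph V) (v : V)
    (A' : Matrix {w : V // w ≠ v} {w : V // w ≠ v} ℝ) (hs : A'.IsSymm)
    (hA' : ∀ i j : {w : V // w ≠ v}, i ≠ j → (A' i j ≠ 0 ↔ G.Adj i.1 j.1)) :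
    ∃ A : Matrix V V ℝ, A.IsSymm ∧ (∀ i j : V, i ≠ j → (A i j ≠ 0 ↔ G.Adj i j)) ∧
      A.rank ≤ A'.rank + 2 := by
  classical
  refine ⟨ext v A' (fun u => if G.Adj v u then 1 else 0), ext_symm v A' hs _, ?_, ext_rank v A' _⟩
  intro i j hij
  by_cases hi : i = v
  · subst hi
    rw [ext_left _ _ _ _ (Ne.symm hij)]
    by_cases h : G.Adj i j <;> simp [h]
  · by_cases hj : j = v
    · subst hj
      rw [ext_right _ _ _ _ hi, G.adj_comm i j]
      by_cases h : G.Adj j i <;> simp [h]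
    · have h1 := ext_in v A' (fun u => if G.Adj v u then 1 else 0) ⟨i, hi⟩ ⟨j, hj⟩
      rw [h1]
      exact hA' _ _ (fun h => hij (congrArg Subtype.val h))

/-- The point–plane non-incidence graph. -/
def G0 : SimpleGraph (Fin 13 ⊕ Fin 13) where
  Adj u w := match u, w with
    | Sum.inl i, Sum.inr j => inc i j = false
    | Sum.inr j, Sum.inl i => inc i j = false
    | _, _ => False
  symm := ⟨by
    intro u w h
    rcases u with i | i <;> rcases w with j | j <;> exact h⟩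
  loopless := ⟨by
    intro u h
    rcases u with i | i <;> exact h⟩

/-- bipartite matrix from vectors -/
theorem bip (x y : Fin 13 → Fin 4 → ℝ) : ∃ M : Matrix (Fin 13 ⊕ Fin 13) (Fin 13 ⊕ Fin 13) ℝ,
    M.IsSymm ∧ M.rank ≤ 8 ∧ (∀ i i', M (Sum.inl i) (Sum.inl i') = 0) ∧
    (∀ i i', M (Sum.inr i) (Sum.inr i') = 0) ∧
    (∀ i j, M (Sum.inl i) (Sum.inr j) = dot4 (x i) (y j)) := by
  refine ⟨Matrix.fromBlocks (Matrix.of x) 0 0 (Matrix.of y) *
    Matrix.fromBlocks 0 (Matrix.of y)ᵀ (Matrix.of x)ᵀ 0, ?_, ?_, ?_, ?_, ?_⟩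
  · rw [Matrix.fromBlocks_multiply]
    simp only [Matrix.zero_mul, Matrix.mul_zero, add_zero, zero_add]
    refine Matrix.IsSymm.fromBlocks Matrix.isSymm_zero ?_ Matrix.isSymm_zero
    rw [Matrix.transpose_mul, Matrix.transpose_transpose]
  · refine (Matrix.rank_mul_le_left _ _).trans ?_
    exact (Matrix.rank_le_card_width _).trans (by simp)
  · intro i i'
    rw [Matrix.fromBlocks_multiply]; simp
  · intro i i'
    rw [Matrix.fromBlocks_multiply]; simp
  · intro i j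
    rw [Matrix.fromBlocks_multiply]
    simp [Matrix.mul_apply, Fin.sum_univ_four, dot4]

theorem upper (v : Fin 13 ⊕ Fin 13) : ∃ M : Matrix (Fin 13 ⊕ Fin 13) (Fin 13 ⊕ Fin 13) ℝ,
    M.IsSymm ∧ M.rank ≤ 8 ∧ ∀ u w, u ≠ v → w ≠ v → (M u w ≠ 0 ↔ G0.Adj u w) := by
  obtain ⟨X, Y, H⟩ := exists_vectors
  rcases v with t | t
  · obtain ⟨M, hs, hr, h1, h2, h3⟩ := bip (fun i => X (i - t)) (fun j => Y (j - t))
    have h4 : ∀ i j, i ≠ t → (M (Sum.inl i) (Sum.inr j) ≠ 0 ↔ inc i j = false) := by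
      intro i j hi
      rw [h3, Ne, H (i - t) (j - t) (sub_ne_zero.2 hi)]
      have : inc (i - t) (j - t) = inc i j := by unfold inc; rw [sub_sub_sub_cancel_right]
      rw [this]; simp
    refine ⟨M, hs, hr, ?_⟩
    intro u w hu hw
    rcases u with i | i <;> rcases w with j | j
    · rw [h1]; simp [G0]
    · exact h4 i j (fun h => hu (by rw [h]))
    · rw [hs.apply]; exact h4 j i (fun h => hw (by rw [h]))
    · rw [h2]; simp [G0]
  · obtain ⟨M, hs, hr, h1, h2, h3⟩ := bip (fun i => Y (t - i)) (fun j => X (t - j))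
    have h4 : ∀ i j, j ≠ t → (M (Sum.inl i) (Sum.inr j) ≠ 0 ↔ inc i j = false) := by
      intro i j hj
      have hc : dot4 (Y (t - i)) (X (t - j)) = dot4 (X (t - j)) (Y (t - i)) := by
        unfold dot4; ring
      rw [h3, hc, Ne, H (t - j) (t - i) (sub_ne_zero.2 (Ne.symm hj))]
      have : inc (t - j) (t - i) = inc i j := by unfold inc; rw [sub_sub_sub_cancel_left]
      rw [this]; simp
    refine ⟨M, hs, hr, ?_⟩
    intro u w hu hw
    rcases u with i | i <;> rcases w with j | j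
    · rw [h1]; simp [G0]
    · exact h4 i j (fun h => hw (by rw [h]))
    · rw [hs.apply]; exact h4 j i (fun h => hu (by rw [h]))
    · rw [h2]; simp [G0]

theorem lowerG0 (A : Matrix (Fin 13 ⊕ Fin 13) (Fin 13 ⊕ Fin 13) ℝ) (hs : A.IsSymm)
    (hA : ∀ i j, i ≠ j → (A i j ≠ 0 ↔ G0.Adj i j)) : 10 ≤ A.rank := by
  apply lower
  refine ⟨hs, ?_, ?_, ?_⟩
  · intro i i' h
    by_contra h2
    exact (hA (Sum.inl i) (Sum.inl i') (fun h3 => h (Sum.inl_injective h3))).1 h2
  · intro i i' h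
    by_contra h2
    exact (hA (Sum.inr i) (Sum.inr i') (fun h3 => h (Sum.inr_injective h3))).1 h2
  · intro i j
    have h : A (Sum.inl i) (Sum.inr j) ≠ 0 ↔ inc i j = false := hA (Sum.inl i) (Sum.inr j) (by simp)
    constructor
    · intro h2
      by_contra h3
      exact (h.2 (by simpa using h3)) h2
    · intro h2
      by_contra h3
      have := h.1 h3
      rw [h2] at this; exact absurd this (by decide)

theorem main : ∃ n : ℕ, 0 < n ∧ ∃ G : SimpleGraph (Fin n), ∀ v : Fin n,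
      sInf {k : ℕ | ∃ A : Matrix (Fin n) (Fin n) ℝ, A.IsSymm ∧
          (∀ i j : Fin n, i ≠ j → (A i j ≠ 0 ↔ G.Adj i j)) ∧ A.rank = k}
        = sInf {k : ℕ | ∃ A : Matrix {w : Fin n // w ≠ v} {w : Fin n // w ≠ v} ℝ, A.IsSymm ∧
          (∀ i j : {w : Fin n // w ≠ v}, i ≠ j → (A i j ≠ 0 ↔ G.Adj i.1 j.1)) ∧ A.rank = k} + 2 := by
  let e : Fin 13 ⊕ Fin 13 ≃ Fin (13 + 13) := finSumFinEquiv
  refine ⟨13 + 13, by norm_num, G0.comap e.symm, ?_⟩
  intro v
  set S : Set ℕ := {k : ℕ | ∃ A : Matrix (Fin (13 + 13)) (Fin (13 + 13)) ℝ, A.IsSymm ∧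
          (∀ i j : Fin (13 + 13), i ≠ j → (A i j ≠ 0 ↔ (G0.comap e.symm).Adj i j)) ∧ A.rank = k} with hS
  set S' : Set ℕ := {k : ℕ | ∃ A : Matrix {w : Fin (13 + 13) // w ≠ v} {w : Fin (13 + 13) // w ≠ v} ℝ,
          A.IsSymm ∧ (∀ i j : {w : Fin (13 + 13) // w ≠ v}, i ≠ j →
            (A i j ≠ 0 ↔ (G0.comap e.symm).Adj i.1 j.1)) ∧ A.rank = k} with hS'
  -- upper bound for the deleted graph
  have h8 : ∃ k ∈ S', k ≤ 8 := by
    obtain ⟨M, hs, hr, hM⟩ := upper (e.symm v)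
    let g : {w : Fin (13 + 13) // w ≠ v} → Fin 13 ⊕ Fin 13 := fun w => e.symm w.1
    refine ⟨(M.submatrix g g).rank, ⟨M.submatrix g g, hs.submatrix _, ?_, rfl⟩,
      (Matrix.rank_submatrix_le M g g).trans hr⟩
    intro i j _
    exact hM _ _ (fun h => i.2 (e.symm.injective h)) (fun h => j.2 (e.symm.injective h))
  obtain ⟨k, hk, hk8⟩ := h8
  have hm : sInf S' ∈ S' := Nat.sInf_mem ⟨k, hk⟩
  have hm8 : sInf S' ≤ 8 := (Nat.sInf_le hk).trans hk8
  -- bordering
  have hb : ∃ k' ∈ S, k' ≤ sInf S' + 2 := by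
    obtain ⟨A', hs', hA', hr'⟩ := hm
    obtain ⟨A, hs, hA, hr⟩ := border (G0.comap e.symm) v A' hs' hA'
    exact ⟨A.rank, ⟨A, hs, hA, rfl⟩, by rw [← hr']; exact hr⟩
  obtain ⟨k', hk', hk'2⟩ := hb
  have h10 : 10 ≤ sInf S := by
    obtain ⟨A, hs, hA, hr⟩ := Nat.sInf_mem (⟨k', hk'⟩ : S.Nonempty)
    rw [← hr]
    have h1 := lowerG0 (A.submatrix e e) (hs.submatrix _) (by
      intro i j hij
      have := hA (e i) (e j) (fun h => hij (e.injective h))
      rw [Matrix.submatrix_apply, this, SimpleGraph.comap_adj, e.symm_apply_apply, e.symm_apply_apply])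
    exact h1.trans (Matrix.rank_submatrix_le A _ _)
  have h11 : sInf S ≤ sInf S' + 2 := (Nat.sInf_le hk').trans hk'2
  omega

end Pool.Agent.Helper425.RS
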