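import Mathlib

set_option autoImplicit false

namespace Pool.Agent.Helper425.RS

open Matrix

theorem rank_add_le' {m n : Type*} [Fintype m] [Fintype n] (A B : Matrix m n ℝ) :
    (A + B).rank ≤ A.rank + B.rank := by
  unfold Matrix.rank
  rw [Matrix.mulVecLin_add]
  calc Module.finrank ℝ (LinearMap.range (A.mulVecLin + B.mulVecLin))
      ≤ Module.finrank ℝ ↥(LinearMap.range A.mulVecLin ⊔ LinearMap.range B.mulVecLin) :=
        Submodule.finrank_mono (LinearMap.range_add_le _ _)
    _ ≤ _ := Submodule.finrank_add_le_finrank_add_finrank _ _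

/-- A square block with a point-by-plane nonsingular submatrix `T` on points with zero diagonal,
together with further points with nonzero diagonal, gives rank at least `2 * |T| + ...`. -/
theorem lemmaA {α β κ μ : Type*} [Fintype α] [Fintype β] [Fintype κ] [Fintype μ]
    [DecidableEq κ] [DecidableEq μ]
    (A : Matrix (α ⊕ β) (α ⊕ β) ℝ) (hs : A.IsSymm)
    (hpp : ∀ i i', i ≠ i' → A (Sum.inl i) (Sum.inl i') = 0)
    (r : κ → α) (cc : κ → β) (p : μ → α) (hp : Function.Injective p)
    (hr : ∀ a, A (Sum.inl (r a)) (Sum.inl (r a)) = 0)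
    (hpd : ∀ m, A (Sum.inl (p m)) (Sum.inl (p m)) ≠ 0)
    (hT : (Matrix.of fun a b => A (Sum.inl (r a)) (Sum.inr (cc b))).det ≠ 0) :
    2 * Fintype.card κ + Fintype.card μ ≤ A.rank := by
  have hrp : ∀ a m, A (Sum.inl (r a)) (Sum.inl (p m)) = 0 := by
    intro a m
    apply hpp
    intro h
    apply hpd m
    rw [← h]; exact hr a
  have hpr : ∀ m a, A (Sum.inl (p m)) (Sum.inl (r a)) = 0 := by
    intro m a
    rw [hs.apply]; exact hrp a m
  have hrr : ∀ a b, A (Sum.inl (r a)) (Sum.inl (r b)) = 0 := by
    intro a b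
    by_cases h : r a = r b
    · rw [← h]; exact hr a
    · exact hpp _ _ h
  have hppz : ∀ m m', m ≠ m' → A (Sum.inl (p m)) (Sum.inl (p m')) = 0 := by
    intro m m' h
    exact hpp _ _ (fun h2 => h (hp h2))
  let g : κ ⊕ (κ ⊕ μ) → α ⊕ β :=
    Sum.elim (fun a => Sum.inl (r a)) (Sum.elim (fun a => Sum.inr (cc a)) (fun m => Sum.inl (p m)))
  have hdet : (A.submatrix g g).det ≠ 0 := by
    intro h
    obtain ⟨v, hv0, hv⟩ := Matrix.exists_mulVec_eq_zero_iff.2 h
    apply hv0
    have hv' : ∀ k, ∑ l, A (g k) (g l) * v l = 0 := by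
      intro k
      have := congrFun hv k
      simpa [Matrix.mulVec, dotProduct] using this
    simp only [Fintype.sum_sum_type] at hv'
    have h2 : (fun b => v (Sum.inr (Sum.inl b))) = 0 := by
      apply Matrix.eq_zero_of_mulVec_eq_zero hT
      funext a
      have := hv' (Sum.inl a)
      simp only [g, Sum.elim_inl, Sum.elim_inr, hrr, hrp, zero_mul, Finset.sum_const_zero, zero_add,
        add_zero] at this
      simpa [Matrix.mulVec, dotProduct] using this
    have h2' : ∀ b, v (Sum.inr (Sum.inl b)) = 0 := fun b => congrFun h2 b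
    have h3 : ∀ m, v (Sum.inr (Sum.inr m)) = 0 := by
      intro m
      have := hv' (Sum.inr (Sum.inr m))
      simp only [g, Sum.elim_inl, Sum.elim_inr, hpr, h2', zero_mul, mul_zero, Finset.sum_const_zero,
        zero_add] at this
      rw [Finset.sum_eq_single m] at this
      · exact (mul_eq_zero.1 this).resolve_left (hpd m)
      · intro m' _ hm
        rw [hppz m m' (Ne.symm hm), zero_mul]
      · intro h; exact absurd (Finset.mem_univ _) h
    have h1 : (fun b => v (Sum.inl b)) = 0 := by
      have hT' : (Matrix.of fun a b => A (Sum.inl (r a)) (Sum.inr (cc b)))ᵀ.det ≠ 0 := by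
        rw [Matrix.det_transpose]; exact hT
      apply Matrix.eq_zero_of_mulVec_eq_zero hT'
      funext a
      have := hv' (Sum.inr (Sum.inl a))
      simp only [g, Sum.elim_inl, Sum.elim_inr, h2', h3, mul_zero, Finset.sum_const_zero,
        add_zero] at this
      have h4 : ∀ b, A (Sum.inr (cc a)) (Sum.inl (r b)) = A (Sum.inl (r b)) (Sum.inr (cc a)) :=
        fun b => hs.apply _ _
      simp only [h4] at this
      simpa [Matrix.mulVec, dotProduct] using this
    funext k
    rcases k with a | a | m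
    · exact congrFun h1 a
    · exact h2' a
    · exact h3 m
  have h5 := Matrix.rank_of_det_ne_zero hdet
  have h6 := Matrix.rank_submatrix_le A g g
  rw [h5] at h6
  simp only [Fintype.card_sum] at h6
  omega

theorem schur {ι η κ : Type*} [Fintype κ] [DecidableEq κ] (B : ι → η → ℝ) (R : κ → ι) (C : κ → η)
    (i : ι) (j : η)
    (hT : (Matrix.of fun a b => B (R a) (C b)).det ≠ 0)
    (hd : (Matrix.of fun a b : κ ⊕ Unit =>
      B (Sum.elim R (fun _ => i) a) (Sum.elim C (fun _ => j) b)).det = 0) :
    B i j = ∑ k, ((fun b => B i (C b)) ᵥ* (Matrix.of fun a b => B (R a) (C b))⁻¹) k * B (R k) j := by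
  set T : Matrix κ κ ℝ := Matrix.of fun a b => B (R a) (C b) with hTdef
  have hu : IsUnit T.det := isUnit_iff_ne_zero.2 hT
  let _ : Invertible T := Matrix.invertibleOfIsUnitDet T hu
  have e : (Matrix.of fun a b : κ ⊕ Unit =>
      B (Sum.elim R (fun _ => i) a) (Sum.elim C (fun _ => j) b)) =
      Matrix.fromBlocks T (Matrix.of fun a (_ : Unit) => B (R a) j)
        (Matrix.of fun (_ : Unit) b => B i (C b)) (Matrix.of fun (_ : Unit) (_ : Unit) => B i j) := by
    ext a b
    rcases a with a | a <;> rcases b with b | b <;> simp [T]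
  rw [e, Matrix.det_fromBlocks₁₁, mul_eq_zero] at hd
  have h2 := hd.resolve_left hT
  rw [Matrix.det_unique, Matrix.sub_apply, sub_eq_zero] at h2
  rw [Matrix.invOf_eq_nonsing_inv] at h2
  have h3 : B i j = (Matrix.of (fun (_ : Unit) b => B i (C b)) * T⁻¹ *
    Matrix.of (fun a (_ : Unit) => B (R a) j)) default default := h2
  rw [h3]
  simp [Matrix.mul_apply, Matrix.vecMul, dotProduct]

end Pool.Agent.Helper425.RS
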