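import Pool.Agent.Helper425.RankStrong.Vec
import Pool.Agent.Helper425.RankStrong.LinAlg

set_option autoImplicit false

namespace Pool.Agent.Helper425.RS

open Matrix

/-- the zero/nonzero pattern of the bipartite point–plane graph on `Fin 13 ⊕ Fin 13`. -/
structure Adm (A : Matrix (Fin 13 ⊕ Fin 13) (Fin 13 ⊕ Fin 13) ℝ) : Prop where
  symm : A.IsSymm
  pp : ∀ i i', i ≠ i' → A (Sum.inl i) (Sum.inl i') = 0
  ll : ∀ j j', j ≠ j' → A (Sum.inr j) (Sum.inr j') = 0
  pl : ∀ i j, A (Sum.inl i) (Sum.inr j) = 0 ↔ inc i j = true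

/-- shift of points and planes -/
def sh (s : Fin 13) : Fin 13 ⊕ Fin 13 → Fin 13 ⊕ Fin 13 :=
  Sum.elim (fun i => Sum.inl (i + s)) (fun j => Sum.inr (j + s))

/-- the point-plane duality -/
def fl : Fin 13 ⊕ Fin 13 → Fin 13 ⊕ Fin 13 :=
  Sum.elim (fun i => Sum.inr (-i)) (fun j => Sum.inl (-j))

theorem inc_sh (s i j : Fin 13) : inc (i + s) (j + s) = inc i j := by
  unfold inc; rw [add_sub_add_right_eq_sub]

theorem inc_fl (i j : Fin 13) : inc (-j) (-i) = inc i j := by
  unfold inc; rw [neg_sub_neg]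

theorem Adm.shift {A : Matrix (Fin 13 ⊕ Fin 13) (Fin 13 ⊕ Fin 13) ℝ} (h : Adm A) (s : Fin 13) :
    Adm (A.submatrix (sh s) (sh s)) where
  symm := h.symm.submatrix _
  pp := fun i i' hi => h.pp _ _ (fun h2 => hi (add_right_cancel h2))
  ll := fun i i' hi => h.ll _ _ (fun h2 => hi (add_right_cancel h2))
  pl := fun i j => by
    rw [← inc_sh s i j]; exact h.pl _ _

theorem Adm.flip {A : Matrix (Fin 13 ⊕ Fin 13) (Fin 13 ⊕ Fin 13) ℝ} (h : Adm A) :
    Adm (A.submatrix fl fl) where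
  symm := h.symm.submatrix _
  pp := fun i i' hi => h.ll _ _ (fun h2 => hi (neg_injective h2))
  ll := fun i i' hi => h.pp _ _ (fun h2 => hi (neg_injective h2))
  pl := fun i j => by
    rw [← inc_fl i j, ← h.pl]
    show A (Sum.inr (-i)) (Sum.inl (-j)) = 0 ↔ _
    rw [h.symm.apply]

theorem triU {n : ℕ} {A : Matrix (Fin 13 ⊕ Fin 13) (Fin 13 ⊕ Fin 13) ℝ} (h : Adm A)
    (r cc : Fin n → Fin 13) (h1 : ∀ a b, b < a → inc (r a) (cc b) = true)
    (h2 : ∀ a, inc (r a) (cc a) = false) :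
    (Matrix.of fun a b => A (Sum.inl (r a)) (Sum.inr (cc b))).det ≠ 0 := by
  rw [Matrix.det_of_isUpperTriangular, Finset.prod_ne_zero_iff]
  · intro a _
    rw [Matrix.of_apply, Ne, h.pl, h2]; decide
  · intro a b hab
    rw [Matrix.of_apply, h.pl]
    exact h1 a b hab

theorem triL {n : ℕ} {A : Matrix (Fin 13 ⊕ Fin 13) (Fin 13 ⊕ Fin 13) ℝ} (h : Adm A)
    (r cc : Fin n → Fin 13) (h1 : ∀ a b, a < b → inc (r a) (cc b) = true)
    (h2 : ∀ a, inc (r a) (cc a) = false) :
    (Matrix.of fun a b => A (Sum.inl (r a)) (Sum.inr (cc b))).det ≠ 0 := by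
  rw [Matrix.det_of_isLowerTriangular, Finset.prod_ne_zero_iff]
  · intro a _
    rw [Matrix.of_apply, Ne, h.pl, h2]; decide
  · intro a b hab
    rw [Matrix.of_apply, h.pl]
    exact h1 a b (by simpa using hab)

theorem F1 : ∀ i i' : Fin 13, i ≠ i' → ∃ c, inc i' c = true ∧ inc i c = false := by decide +kernel

theorem F2 : ∀ i : Fin 13, ∃ c, inc i c = false := by decide +kernel

theorem F3' : ∀ u w : Fin 13, u ≠ 0 → w ≠ 0 → u ≠ w → ∃ c,
    (inc 0 c = false ∧ inc u c = true ∧ inc w c = true) ∨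
    (inc u c = false ∧ inc 0 c = true ∧ inc w c = true) ∨
    (inc w c = false ∧ inc 0 c = true ∧ inc u c = true) := by decide +kernel

theorem F3 (i u w : Fin 13) (h1 : i ≠ u) (h2 : i ≠ w) (h3 : u ≠ w) : ∃ c,
    (inc i c = false ∧ inc u c = true ∧ inc w c = true) ∨
    (inc u c = false ∧ inc i c = true ∧ inc w c = true) ∨
    (inc w c = false ∧ inc i c = true ∧ inc u c = true) := by
  obtain ⟨c, hc⟩ := F3' (u - i) (w - i) (sub_ne_zero.2 (Ne.symm h1)) (sub_ne_zero.2 (Ne.symm h2))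
    (fun h => h3 (sub_left_injective h))
  refine ⟨c + i, ?_⟩
  have e0 : inc i (c + i) = inc 0 c := by
    have := inc_sh i 0 c; rwa [zero_add] at this
  have e1 : inc u (c + i) = inc (u - i) c := by
    have := inc_sh i (u - i) c; rwa [sub_add_cancel] at this
  have e2 : inc w (c + i) = inc (w - i) c := by
    have := inc_sh i (w - i) c; rwa [sub_add_cancel] at this
  rw [e0, e1, e2]; exact hc

theorem three {A : Matrix (Fin 13 ⊕ Fin 13) (Fin 13 ⊕ Fin 13) ℝ} (h : Adm A)
    (S : Finset (Fin 13)) (hS : ∀ i ∈ S, A (Sum.inl i) (Sum.inl i) ≠ 0) (hc : 4 ≤ S.card)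
    (i u w : Fin 13) (huw : u ≠ w) (hi : A (Sum.inl i) (Sum.inl i) = 0)
    (hu : A (Sum.inl u) (Sum.inl u) = 0) (hw : A (Sum.inl w) (Sum.inl w) = 0)
    (c : Fin 13) (h1 : inc i c = false) (h2 : inc u c = true) (h3 : inc w c = true) :
    10 ≤ A.rank := by
  obtain ⟨c2, h4, h5⟩ := F1 u w huw
  obtain ⟨c3, h6⟩ := F2 w
  have hT := triU h ![i, u, w] ![c, c2, c3] (by
    intro a b hab
    fin_cases a <;> fin_cases b <;> simp_all [Fin.lt_def])
    (by intro a; fin_cases a <;> simp_all)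
  have := lemmaA A h.symm h.pp ![i, u, w] ![c, c2, c3] (fun m : S => (m : Fin 13))
    Subtype.val_injective (by intro a; fin_cases a <;> simp_all) (fun m => hS _ m.2) hT
  simp only [Fintype.card_fin, Fintype.card_coe] at this
  omega

theorem claim1 {A : Matrix (Fin 13 ⊕ Fin 13) (Fin 13 ⊕ Fin 13) ℝ} (h : Adm A) (hr : A.rank ≤ 9) :
    ∃ p0, ∀ i, i ≠ p0 → A (Sum.inl i) (Sum.inl i) = 0 := by
  classical
  set S : Finset (Fin 13) := Finset.univ.filter (fun i => A (Sum.inl i) (Sum.inl i) ≠ 0) with hSdef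
  have hS : ∀ i ∈ S, A (Sum.inl i) (Sum.inl i) ≠ 0 := fun i hi => (Finset.mem_filter.1 hi).2
  have hS' : ∀ i, i ∉ S → A (Sum.inl i) (Sum.inl i) = 0 := by
    intro i hi
    by_contra h2
    exact hi (Finset.mem_filter.2 ⟨Finset.mem_univ _, h2⟩)
  by_cases c1 : S.card ≤ 1
  · obtain ⟨p0, hp⟩ := Finset.card_le_one_iff_subset_singleton.1 c1
    refine ⟨p0, fun i hi => hS' i (fun h2 => hi ?_)⟩
    simpa using hp h2
  exfalso
  by_cases c10 : 10 ≤ S.card
  · have := lemmaA A h.symm h.pp (fun a : Fin 0 => a.elim0) (fun a : Fin 0 => a.elim0)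
      (fun m : S => (m : Fin 13)) Subtype.val_injective (fun a => a.elim0) (fun m => hS _ m.2)
      (by rw [Matrix.det_fin_zero]; exact one_ne_zero)
    simp only [Fintype.card_fin, Fintype.card_coe] at this
    omega
  by_cases c4 : 4 ≤ S.card
  · have hcc : 2 < Sᶜ.card := by
      rw [Finset.card_compl, Fintype.card_fin]; omega
    obtain ⟨i, hi, u, hu, w, hw, h1, h2, h3⟩ := Finset.two_lt_card.1 hcc
    have zi := hS' i (Finset.mem_compl.1 hi)
    have zu := hS' u (Finset.mem_compl.1 hu)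
    have zw := hS' w (Finset.mem_compl.1 hw)
    obtain ⟨c, hc | hc | hc⟩ := F3 i u w h1 h2 h3
    · have := three h S hS c4 i u w h3 zi zu zw c hc.1 hc.2.1 hc.2.2
      omega
    · have := three h S hS c4 u i w h2 zu zi zw c hc.1 hc.2.1 hc.2.2
      omega
    · have := three h S hS c4 w i u h1 zw zi zu c hc.1 hc.2.1 hc.2.2
      omega
  · -- find a shift
    have hex : ∃ s : Fin 13, ∀ k ∈ ({1, 2, 3, 4} : Finset (Fin 13)), k + s ∉ S := by
      by_contra hne
      push Not at hne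
      have hsub : (Finset.univ : Finset (Fin 13)) ⊆
          S.biUnion (fun e => ({1, 2, 3, 4} : Finset (Fin 13)).image (fun k => e - k)) := by
        intro s _
        obtain ⟨k, hk, hks⟩ := hne s
        refine Finset.mem_biUnion.2 ⟨k + s, hks, Finset.mem_image.2 ⟨k, hk, ?_⟩⟩
        exact add_sub_cancel_left k s
      have h1 := Finset.card_le_card hsub
      have h2 : (S.biUnion (fun e => ({1, 2, 3, 4} : Finset (Fin 13)).image (fun k => e - k))).card
          ≤ S.card * 4 := by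
        apply Finset.card_biUnion_le_card_mul
        intro e _
        exact Finset.card_image_le
      rw [Finset.card_univ, Fintype.card_fin] at h1
      omega
    obtain ⟨s, hs⟩ := hex
    have hT := triL h (fun a => (![1, 2, 3, 4] : Fin 4 → Fin 13) a + s)
      (fun a => (![0, 6, 2, 3] : Fin 4 → Fin 13) a + s)
      (by
        intro a b hab
        rw [inc_sh]
        revert a b; decide)
      (by intro a; rw [inc_sh]; revert a; decide)
    have := lemmaA A h.symm h.pp (fun a => (![1, 2, 3, 4] : Fin 4 → Fin 13) a + s)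
      (fun a => (![0, 6, 2, 3] : Fin 4 → Fin 13) a + s) (fun m : S => (m : Fin 13))
      Subtype.val_injective (by
        intro a; apply hS'; apply hs; revert a; decide) (fun m => hS _ m.2) hT
    simp only [Fintype.card_fin, Fintype.card_coe] at this
    omega

theorem claim2 {A : Matrix (Fin 13 ⊕ Fin 13) (Fin 13 ⊕ Fin 13) ℝ} (h : Adm A) (hr : A.rank ≤ 9) :
    ∃ l0, ∀ j, j ≠ l0 → A (Sum.inr j) (Sum.inr j) = 0 := by
  obtain ⟨p0, hp⟩ := claim1 h.flip ((Matrix.rank_submatrix_le A fl fl).trans hr)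
  refine ⟨-p0, fun j hj => ?_⟩
  have h1 := hp (-j) (fun h2 => hj (by rw [← h2, neg_neg]))
  have h2 : A (Sum.inr (- -j)) (Sum.inr (- -j)) = 0 := h1
  rwa [neg_neg] at h2

theorem base_case {A : Matrix (Fin 13 ⊕ Fin 13) (Fin 13 ⊕ Fin 13) ℝ} (h : Adm A) (hr : A.rank ≤ 9)
    (hp : ∀ i, i ≠ 0 → A (Sum.inl i) (Sum.inl i) = 0) : False := by
  obtain ⟨l, hl⟩ := claim2 h hr
  -- vanishing minors
  have M1 : ∀ r cc : Fin 4 ⊕ Unit → Fin 13, (∀ a, r a ≠ 0) →
      (Matrix.of fun a b => A (Sum.inl (r a)) (Sum.inr (cc b))).det = 0 := by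
    intro r cc hr0
    by_contra hT
    have := lemmaA A h.symm h.pp r cc (fun m : Fin 0 => m.elim0) (fun a => a.elim0)
      (fun a => hp _ (hr0 a)) (fun m => m.elim0) hT
    simp only [Fintype.card_fin, Fintype.card_sum, Fintype.card_unit] at this
    omega
  have M2 : ∀ r cc : Fin 4 ⊕ Unit → Fin 13, (∀ a, cc a ≠ l) →
      (Matrix.of fun a b => A (Sum.inl (r a)) (Sum.inr (cc b))).det = 0 := by
    intro r cc hr0
    by_contra hT
    have hT' : (Matrix.of fun a b => (A.submatrix Sum.swap Sum.swap) (Sum.inl (cc a)) (Sum.inr (r b))).det ≠ 0 := by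
      rw [← Matrix.det_transpose]
      have : (Matrix.of fun a b => (A.submatrix Sum.swap Sum.swap) (Sum.inl (cc a)) (Sum.inr (r b)))ᵀ
          = (Matrix.of fun a b => A (Sum.inl (r a)) (Sum.inr (cc b))) := by
        ext a b
        simp only [Matrix.transpose_apply, Matrix.of_apply, Matrix.submatrix_apply, Sum.swap_inl,
          Sum.swap_inr]
        exact h.symm.apply _ _
      rw [this]; exact hT
    have := lemmaA (A.submatrix Sum.swap Sum.swap) (h.symm.submatrix _)
      (fun i i' hi => h.ll i i' hi) cc r (fun m : Fin 0 => m.elim0) (fun a => a.elim0)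
      (fun a => hl _ (hr0 a)) (fun m => m.elim0) hT'
    have h2 := Matrix.rank_submatrix_le A Sum.swap Sum.swap
    simp only [Fintype.card_fin, Fintype.card_sum, Fintype.card_unit] at this
    omega
  let B : Fin 13 → Fin 13 → ℝ := fun i j => A (Sum.inl i) (Sum.inr j)
  let R : Fin 4 → Fin 13 := ![1, 2, 3, 4]
  let C : Fin 4 → Fin 13 := ![0, 6, 2, 3]
  let C' : Fin 4 → Fin 13 := ![4, 5, 11, 8]
  have hT : (Matrix.of fun a b => B (R a) (C b)).det ≠ 0 := triL h R C (by decide) (by decide)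
  have hT' : (Matrix.of fun a b => B (R a) (C' b)).det ≠ 0 := triU h R C' (by decide) (by decide)
  have hR0 : ∀ a, R a ≠ 0 := by decide
  -- rows `i ≠ 0`
  have hrow : ∀ i, i ≠ 0 → ∀ j, B i j = ∑ k, ((fun b => B i (C b)) ᵥ*
      (Matrix.of fun a b => B (R a) (C b))⁻¹) k * B (R k) j := by
    intro i hi j
    apply schur B R C i j hT
    apply M1
    intro a
    rcases a with a | a
    · exact hR0 a
    · exact hi
  -- row `0`
  have hrow0 : ∃ x0 : Fin 4 → ℝ, ∀ j, j ≠ l → B 0 j = ∑ k, x0 k * B (R k) j := by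
    by_cases hlC : ∀ b, C b ≠ l
    · refine ⟨_, fun j hj => schur B R C 0 j hT ?_⟩
      apply M2
      intro a
      rcases a with a | a
      · exact hlC a
      · exact hj
    · push Not at hlC
      obtain ⟨b, hb⟩ := hlC
      have hlC' : ∀ b, C' b ≠ l := by
        have key : ∀ b b' : Fin 4, (![4, 5, 11, 8] : Fin 4 → Fin 13) b' ≠
            (![0, 6, 2, 3] : Fin 4 → Fin 13) b := by decide
        intro b'; rw [← hb]; exact key b b'
      refine ⟨_, fun j hj => schur B R C' 0 j hT' ?_⟩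
      apply M2
      intro a
      rcases a with a | a
      · exact hlC' a
      · exact hj
  obtain ⟨x0, hx0⟩ := hrow0
  let x : Fin 13 → Fin 4 → ℝ := fun i => if i = 0 then x0 else
    ((fun b => B i (C b)) ᵥ* (Matrix.of fun a b => B (R a) (C b))⁻¹)
  let y : Fin 13 → Fin 4 → ℝ := fun j k => B (R k) j
  have hdot : ∀ u : Fin 4 → ℝ, ∀ j, dot4 u (y j) = ∑ k, u k * B (R k) j := by
    intro u j
    rw [Fin.sum_univ_four]; rfl
  have hxe : ∀ a : Fin 4, x (R a) = Pi.single a 1 := by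
    intro a
    have h1 : x (R a) = ((fun b => B (R a) (C b)) ᵥ* (Matrix.of fun a b => B (R a) (C b))⁻¹) := by
      simp only [x, if_neg (hR0 a)]
    have h2 : (fun b => B (R a) (C b)) = Pi.single a 1 ᵥ* (Matrix.of fun a b => B (R a) (C b)) := by
      rw [Matrix.single_one_vecMul]; rfl
    rw [h1, h2, Matrix.vecMul_vecMul, Matrix.mul_nonsing_inv _ (isUnit_iff_ne_zero.2 hT),
      Matrix.vecMul_one]
  have e1 : x 1 = ![1,0,0,0] := by
    have := hxe 0
    rw [show R 0 = 1 from rfl] at this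
    rw [this]; funext k; fin_cases k <;> rfl
  have e2 : x 2 = ![0,1,0,0] := by
    have := hxe 1
    rw [show R 1 = 2 from rfl] at this
    rw [this]; funext k; fin_cases k <;> rfl
  have e3 : x 3 = ![0,0,1,0] := by
    have := hxe 2
    rw [show R 2 = 3 from rfl] at this
    rw [this]; funext k; fin_cases k <;> rfl
  have e4 : x 4 = ![0,0,0,1] := by
    have := hxe 3
    rw [show R 3 = 4 from rfl] at this
    rw [this]; funext k; fin_cases k <;> rfl
  have hx00 : x 0 = x0 := by simp [x]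
  have H : ∀ i j : Fin 13, i ≠ 0 → (dot4 (x i) (y j) = 0 ↔ inc i j = true) := by
    intro i j hi
    rw [← h.pl i j, hdot]
    have h1 : x i = ((fun b => B i (C b)) ᵥ* (Matrix.of fun a b => B (R a) (C b))⁻¹) := by
      simp only [x, if_neg hi]
    rw [h1, ← hrow i hi j]
  have H0 : ∀ j : Fin 13, j ≠ l → inc 0 j = true → dot4 (x 0) (y j) = 0 := by
    intro j hj hj2
    rw [hx00, hdot, ← hx0 j hj]
    exact (h.pl 0 j).2 hj2
  have hz := core3 x y l H H0 e1 e2 e3 e4
  rw [hx00] at hz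
  have hzero : ∀ j, j ≠ l → inc 0 j = true := by
    intro j hj
    rw [← h.pl 0 j]
    have := hx0 j hj
    rw [hz] at this
    simpa using this
  by_cases h3 : l = 3
  · have := hzero 4 (by rw [h3]; decide)
    exact absurd this (by decide)
  · have := hzero 3 (Ne.symm h3)
    exact absurd this (by decide)

theorem lower {A : Matrix (Fin 13 ⊕ Fin 13) (Fin 13 ⊕ Fin 13) ℝ} (h : Adm A) : 10 ≤ A.rank := by
  by_contra hlt
  have hr : A.rank ≤ 9 := by omega
  obtain ⟨p0, hp⟩ := claim1 h hr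
  apply base_case (h.shift p0) ((Matrix.rank_submatrix_le A _ _).trans hr)
  intro i hi
  exact hp (i + p0) (fun h2 => hi (by simpa using h2))

end Pool.Agent.Helper425.RS
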