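import Pool.Agent.Helper425.RankStrong.Cramer

set_option autoImplicit false

namespace Pool.Agent.Helper425.RS

theorem core3 (x y : Fin 13 → Fin 4 → ℝ) (l : Fin 13)
    (H : ∀ i j : Fin 13, i ≠ 0 → (dot4 (x i) (y j) = 0 ↔ inc i j = true))
    (H0 : ∀ j : Fin 13, j ≠ l → inc 0 j = true → dot4 (x 0) (y j) = 0)
    (x1 : x 1 = ![1,0,0,0]) (x2 : x 2 = ![0,1,0,0]) (x3 : x 3 = ![0,0,1,0])
    (x4 : x 4 = ![0,0,0,1]) :
    x 0 = 0 := by
  have E : ∀ i j : Fin 13, i ≠ 0 → inc i j = true → dot4 (x i) (y j) = 0 := fun i j h h2 => (H i j h).2 h2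
  have N : ∀ i j : Fin 13, i ≠ 0 → inc i j = false → dot4 (x i) (y j) ≠ 0 := fun i j h h2 h3 => by
    have := (H i j h).1 h3
    rw [h2] at this; exact absurd this (by decide)
  have y3_0 : y 3 0 = 0 := by have := E 1 3 (by decide) (by decide); simpa [dot4, x1] using this
  have y3_1 : y 3 1 = 0 := by have := E 2 3 (by decide) (by decide); simpa [dot4, x2] using this
  have y3_2 : y 3 2 = 0 := by have := E 3 3 (by decide) (by decide); simpa [dot4, x3] using this
  have y2_0 : y 2 0 = 0 := by have := E 1 2 (by decide) (by decide); simpa [dot4, x1] using this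
  have y2_1 : y 2 1 = 0 := by have := E 2 2 (by decide) (by decide); simpa [dot4, x2] using this
  have ny2_3 : y 2 3 ≠ 0 := by have := N 4 2 (by decide) (by decide); simpa [dot4, x4] using this
  have y8_0 : y 8 0 = 0 := by have := E 1 8 (by decide) (by decide); simpa [dot4, x1] using this
  have y8_2 : y 8 2 = 0 := by have := E 3 8 (by decide) (by decide); simpa [dot4, x3] using this
  have ny8_3 : y 8 3 ≠ 0 := by have := N 4 8 (by decide) (by decide); simpa [dot4, x4] using this
  have y9_1 : y 9 1 = 0 := by have := E 2 9 (by decide) (by decide); simpa [dot4, x2] using this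
  have y9_3 : y 9 3 = 0 := by have := E 4 9 (by decide) (by decide); simpa [dot4, x4] using this
  have ny9_2 : y 9 2 ≠ 0 := by have := N 3 9 (by decide) (by decide); simpa [dot4, x3] using this
  have s8 : x 8 3 ≠ 0 := by
    have := N 8 3 (by decide) (by decide)
    simp only [dot4, y3_0, y3_1, y3_2, mul_zero, zero_add] at this
    intro h; apply this; rw [h, zero_mul]
  have s5 : x 5 3 ≠ 0 := by
    have := N 5 3 (by decide) (by decide)
    simp only [dot4, y3_0, y3_1, y3_2, mul_zero, zero_add] at this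
    intro h; apply this; rw [h, zero_mul]
  have r8 : x 8 2 ≠ 0 := by
    have := E 8 2 (by decide) (by decide)
    simp only [dot4, y2_0, y2_1, mul_zero, zero_add] at this
    intro h; rw [h, zero_mul, zero_add] at this
    exact (mul_ne_zero s8 ny2_3) this
  have q8 : x 8 1 ≠ 0 := by
    have := E 8 8 (by decide) (by decide)
    simp only [dot4, y8_0, y8_2, mul_zero, zero_add, add_zero] at this
    intro h; rw [h, zero_mul, zero_add] at this
    exact (mul_ne_zero s8 ny8_3) this
  have p8 : x 8 0 ≠ 0 := by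
    have := E 8 9 (by decide) (by decide)
    simp only [dot4, y9_1, y9_3, mul_zero, add_zero] at this
    intro h; rw [h, zero_mul, zero_add] at this
    exact (mul_ne_zero r8 ny9_2) this
  -- scaling
  have w0 : ∀ k, x 8 k ≠ 0 := by
    intro k; fin_cases k
    · exact p8
    · exact q8
    · exact r8
    · exact s8
  let lam : Fin 13 → ℝ := fun i => if i = 1 then x 8 0 else if i = 2 then x 8 1 else if i = 3 then x 8 2
    else if i = 4 then x 8 3 else if i = 5 then x 8 3 / x 5 3 else 1
  have hlam : ∀ i, lam i ≠ 0 := by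
    intro i
    simp only [lam]
    split_ifs
    · exact p8
    · exact q8
    · exact r8
    · exact s8
    · exact div_ne_zero s8 s5
    · exact one_ne_zero
  let x' : Fin 13 → Fin 4 → ℝ := fun i k => lam i * x i k / x 8 k
  let y' : Fin 13 → Fin 4 → ℝ := fun j k => x 8 k * y j k
  have hdot : ∀ i j, dot4 (x' i) (y' j) = lam i * dot4 (x i) (y j) := by
    intro i j
    simp only [dot4, x', y']
    field_simp
  have H' : ∀ i j : Fin 13, i ≠ 0 → (dot4 (x' i) (y' j) = 0 ↔ inc i j = true) := by
    intro i j h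
    rw [hdot, ← H i j h, mul_eq_zero]
    constructor
    · intro h2; exact h2.resolve_left (hlam i)
    · intro h2; exact Or.inr h2
  have H0' : ∀ j : Fin 13, j ≠ l → inc 0 j = true → dot4 (x' 0) (y' j) = 0 := by
    intro j h1 h2
    rw [hdot, H0 j h1 h2, mul_zero]
  have l1 : lam 1 = x 8 0 := by simp [lam]
  have l2 : lam 2 = x 8 1 := by simp [lam]
  have l3 : lam 3 = x 8 2 := by simp [lam]
  have l4 : lam 4 = x 8 3 := by simp [lam]
  have l5 : lam 5 = x 8 3 / x 5 3 := by simp [lam]
  have l8 : lam 8 = 1 := by simp [lam]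
  have x1' : x' 1 = ![1,0,0,0] := by
    funext k; simp only [x', l1, x1]; fin_cases k <;> simp [p8]
  have x2' : x' 2 = ![0,1,0,0] := by
    funext k; simp only [x', l2, x2]; fin_cases k <;> simp [q8]
  have x3' : x' 3 = ![0,0,1,0] := by
    funext k; simp only [x', l3, x3]; fin_cases k <;> simp [r8]
  have x4' : x' 4 = ![0,0,0,1] := by
    funext k; simp only [x', l4, x4]; fin_cases k <;> simp [s8]
  have x8' : x' 8 = ![1,1,1,1] := by
    funext k; simp only [x', l8]; fin_cases k <;> simp [p8, q8, r8, s8]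
  have x5' : x' 5 = ![x' 5 0, x' 5 1, x' 5 2, 1] := by
    funext k; fin_cases k
    · rfl
    · rfl
    · rfl
    · show x' 5 3 = 1
      simp only [x', l5]; field_simp
  have h0 := core2 (x' 5 0) (x' 5 1) (x' 5 2) x' y' l H' H0' x1' x2' x3' x4' x8' x5'
  funext k
  have h1 := congrFun h0 k
  simp only [x', Pi.zero_apply, div_eq_zero_iff, mul_eq_zero] at h1
  rcases h1 with (h1 | h1) | h1
  · exact absurd h1 (hlam 0)
  · exact h1
  · exact absurd h1 (w0 k)

end Pool.Agent.Helper425.RS
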